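import Pool.Agent.H464.Circle

open Metric Set

namespace H464

noncomputable section

/-- the affine homeomorphism used for the one-cell -/
def lineH : (Fin 1 → ℝ) ≃ₜ ℝ where
  toFun x := x 0 / 2
  invFun y := fun _ => 2 * y
  left_inv x := by ext i; rw [Subsingleton.elim i 0]; ring
  right_inv y := by simp
  continuous_toFun := by fun_prop
  continuous_invFun := by fun_prop

/-- the one-cell -/
def oneCell : OpenPartialHomeomorph (Fin 1 → ℝ) (AddCircle (1 : ℝ)) :=
  lineH.toOpenPartialHomeomorph.trans (AddCircle.openPartialHomeomorphCoe (1 : ℝ) (-1 / 2))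

lemma oneCell_apply (x : Fin 1 → ℝ) : oneCell x = ((x 0 / 2 : ℝ) : AddCircle (1 : ℝ)) := rfl

lemma oneCell_source : oneCell.source = ball 0 1 := by
  ext x
  simp only [oneCell, OpenPartialHomeomorph.trans_source, Homeomorph.toOpenPartialHomeomorph_source,
    univ_inter, mem_preimage, AddCircle.openPartialHomeomorphCoe_source, mem_Ioo, mem_ball,
    dist_zero_right]
  rw [pi_norm_lt_iff one_pos]
  change (-1 / 2 < x 0 / 2 ∧ x 0 / 2 < -1 / 2 + 1) ↔ _
  simp only [Fin.forall_fin_one, Real.norm_eq_abs, abs_lt]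
  constructor
  · rintro ⟨h1, h2⟩; constructor <;> linarith
  · rintro ⟨h1, h2⟩; constructor <;> linarith

/-- cells -/
def cel : ℕ → Type
  | 0 => PUnit
  | 1 => PUnit
  | _ => PEmpty

/-- the zero-dimensional cell index -/
def c0 : cel 0 := PUnit.unit

/-- the one-dimensional cell index -/
def c1 : cel 1 := PUnit.unit

/-- characteristic maps -/
def celMap : (n : ℕ) → cel n → PartialEquiv (Fin n → ℝ) (AddCircle (1 : ℝ))
  | 0, _ => PartialEquiv.single ![] ((1 / 2 : ℝ) : AddCircle (1 : ℝ))
  | 1, _ => oneCell.toPartialEquiv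
  | _ + 2, i => i.elim

lemma celMap_zero (i : cel 0) (x : Fin 0 → ℝ) :
    celMap 0 i x = ((1 / 2 : ℝ) : AddCircle (1 : ℝ)) := rfl

lemma celMap_one (i : cel 1) (x : Fin 1 → ℝ) :
    celMap 1 i x = ((x 0 / 2 : ℝ) : AddCircle (1 : ℝ)) := rfl

lemma half_eq : ((-1 / 2 : ℝ) : AddCircle (1 : ℝ)) = ((1 / 2 : ℝ) : AddCircle (1 : ℝ)) := by
  have h := coe_add_int (-1 / 2) 1
  rw [← h]
  congr 1
  push_cast
  norm_num

lemma one_target (i : cel 1) : (celMap 1 i).target = {((-1 / 2 : ℝ) : AddCircle (1 : ℝ))}ᶜ := by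
  change oneCell.target = _
  simp [oneCell]

lemma one_image (i : cel 1) : celMap 1 i '' ball 0 1 = {((-1 / 2 : ℝ) : AddCircle (1 : ℝ))}ᶜ := by
  rw [← one_target i, ← oneCell_source]
  exact (celMap 1 i).image_source_eq_target

lemma zero_image (i : cel 0) (s : Set (Fin 0 → ℝ)) (hs : s.Nonempty) :
    celMap 0 i '' s = {((-1 / 2 : ℝ) : AddCircle (1 : ℝ))} := by
  rw [half_eq]
  obtain ⟨x, hx⟩ := hs
  ext y
  constructor
  · rintro ⟨z, _, rfl⟩; rfl
  · rintro rfl; exact ⟨x, hx, rfl⟩

lemma cw_ev : ∀ᶠ n in Filter.atTop, IsEmpty (cel n) := by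
  rw [Filter.eventually_atTop]
  refine ⟨2, fun n hn => ?_⟩
  match n, hn with
  | n + 2, _ => exact inferInstanceAs (IsEmpty PEmpty)

lemma cw_fin (n : ℕ) : Finite (cel n) := by
  match n with
  | 0 => exact inferInstanceAs (Finite PUnit)
  | 1 => exact inferInstanceAs (Finite PUnit)
  | n + 2 => exact inferInstanceAs (Finite PEmpty)

lemma cw_source (n : ℕ) (i : cel n) : (celMap n i).source = ball 0 1 := by
  match n, i with
  | 0, _ =>
    change ({![]} : Set (Fin 0 → ℝ)) = ball 0 1
    ext x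
    constructor
    · intro _
      rw [Subsingleton.elim x 0]
      exact mem_ball_self one_pos
    · intro _; exact Subsingleton.elim _ _
  | 1, _ => exact oneCell_source
  | n + 2, i => exact i.elim

lemma cw_cont (n : ℕ) (i : cel n) : ContinuousOn (celMap n i) (closedBall 0 1) := by
  match n, i with
  | 0, _ => exact continuous_const.continuousOn
  | 1, _ =>
    apply Continuous.continuousOn
    change Continuous fun x : Fin 1 → ℝ => ((x 0 / 2 : ℝ) : AddCircle (1 : ℝ))
    exact (AddCircle.continuous_mk' (1 : ℝ)).comp (by fun_prop)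
  | n + 2, i => exact i.elim

lemma cw_symm (n : ℕ) (i : cel n) : ContinuousOn (celMap n i).symm (celMap n i).target := by
  match n, i with
  | 0, _ => exact continuous_const.continuousOn
  | 1, _ => exact oneCell.continuousOn_symm
  | n + 2, i => exact i.elim

lemma ball_ne : (ball (0 : Fin 0 → ℝ) 1).Nonempty := ⟨0, by simp⟩
lemma closedBall_ne : (closedBall (0 : Fin 0 → ℝ) 1).Nonempty := ⟨0, by simp⟩

lemma cw_disj : (univ : Set (Σ n, cel n)).PairwiseDisjoint
    (fun ni ↦ celMap ni.1 ni.2 '' ball 0 1) := by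
  rintro ⟨n, i⟩ _ ⟨m, j⟩ _ hne
  match n, i, m, j with
  | 0, i, 0, j => exact absurd (by rw [show i = j from rfl]) hne
  | 1, i, 1, j => exact absurd (by rw [show i = j from rfl]) hne
  | 0, i, 1, j =>
    change Disjoint (celMap 0 i '' ball 0 1) (celMap 1 j '' ball 0 1)
    rw [zero_image i _ ball_ne, one_image]
    exact disjoint_compl_right
  | 1, i, 0, j =>
    change Disjoint (celMap 1 i '' ball 0 1) (celMap 0 j '' ball 0 1)
    rw [zero_image j _ ball_ne, one_image]
    exact disjoint_compl_left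
  | n + 2, i, _, _ => exact i.elim
  | _, _, m + 2, j => exact j.elim

lemma cw_maps (n : ℕ) (i : cel n) :
    MapsTo (celMap n i) (sphere 0 1) (⋃ (m < n) (j : cel m), celMap m j '' closedBall 0 1) := by
  match n, i with
  | 0, _ =>
    intro x hx
    rw [mem_sphere, Subsingleton.elim x 0, dist_self] at hx
    exact absurd hx zero_ne_one
  | 1, i =>
    intro x hx
    have h1 : |x 0| = 1 := by
      rw [mem_sphere, dist_zero_right] at hx
      rw [← hx]
      apply le_antisymm
      · exact norm_le_pi_norm x 0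
      · rw [pi_norm_le_iff_of_nonneg (abs_nonneg _)]
        intro k
        rw [Subsingleton.elim k 0]
        exact le_rfl
    simp only [mem_iUnion]
    refine ⟨0, Nat.zero_lt_one, c0, 0, by simp, ?_⟩
    change ((1 / 2 : ℝ) : AddCircle (1 : ℝ)) = ((x 0 / 2 : ℝ) : AddCircle (1 : ℝ))
    rcases (abs_eq zero_le_one).1 h1 with h | h
    · rw [h]
    · rw [h, ← half_eq]
  | n + 2, i => exact i.elim

lemma cw_union : ⋃ (n : ℕ) (j : cel n), celMap n j '' closedBall 0 1 =
    (univ : Set (AddCircle (1 : ℝ))) := by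
  rw [eq_univ_iff_forall]
  intro c
  simp only [mem_iUnion]
  by_cases h : c = ((-1 / 2 : ℝ) : AddCircle (1 : ℝ))
  · refine ⟨0, c0, 0, by simp, ?_⟩
    rw [h, half_eq]
    rfl
  · have h1 : c ∈ celMap 1 c1 '' ball 0 1 := by
      rw [one_image]; exact h
    obtain ⟨x, hx, rfl⟩ := h1
    exact ⟨1, c1, x, ball_subset_closedBall hx, rfl⟩

/-- the circle as a finite CW complex -/
theorem circle_cw : ∃ _ : Topology.CWComplex (univ : Set (AddCircle (1 : ℝ))),
    Topology.RelCWComplex.Finite (univ : Set (AddCircle (1 : ℝ))) :=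
  ⟨Topology.CWComplex.mkFinite univ cel celMap cw_ev cw_fin cw_source cw_cont cw_symm cw_disj
    cw_maps cw_union,
   Topology.CWComplex.finite_mkFinite univ cel celMap cw_ev cw_fin cw_source cw_cont cw_symm
    cw_disj cw_maps cw_union⟩

end
end H464
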