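import Pool.Agent.H464.Cover

open CategoryTheory Opposite

namespace H464

noncomputable section

open Heis

abbrev II : Type := unitInterval

/-- reparametrisations -/
def aa (l : ℝ) : II := Set.projIcc 0 1 zero_le_one (2 * l)

def bb (l : ℝ) : II := Set.projIcc 0 1 zero_le_one (2 - 2 * l)

lemma aa_cont : Continuous aa := by unfold aa; exact continuous_projIcc.comp (by fun_prop)

lemma bb_cont : Continuous bb := by unfold bb; exact continuous_projIcc.comp (by fun_prop)

lemma aa_zero : aa 0 = 0 := by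
  unfold aa; rw [mul_zero]; exact Set.projIcc_left _

lemma aa_big {l : ℝ} (h : 1 / 2 ≤ l) : aa l = 1 := by
  unfold aa; exact Set.projIcc_of_right_le _ (by linarith)

lemma bb_one : bb 1 = 0 := by
  unfold bb
  exact Set.projIcc_of_le_left _ (by linarith)

lemma bb_small {l : ℝ} (h : l ≤ 1 / 2) : bb l = 1 := by
  unfold bb; exact Set.projIcc_of_right_le _ (by linarith)

lemma con_cont : Continuous fun p : EE × II => con heisData p.1 p.2 := by fun_prop

/-- the pieces of the equivariant homotopy -/
def Kn (n : ℤ) : C(EE, C(II, BB')) :=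
  ContinuousMap.curry ⟨fun p : EE × II => pr (con heisData
      (sh 1 (con heisData (sh (-1 - n) p.1) (p.2 * aa (ht p.1 - n)))) (p.2 * bb (ht p.1 - n))), by
    have h1 : Continuous fun p : EE × II => ht p.1 - (n : ℝ) :=
      (ht.continuous.comp continuous_fst).sub continuous_const
    have h2 : Continuous fun p : EE × II => p.2 * aa (ht p.1 - n) :=
      continuous_snd.mul (aa_cont.comp h1)
    have h3 : Continuous fun p : EE × II => p.2 * bb (ht p.1 - n) :=
      continuous_snd.mul (bb_cont.comp h1)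
    have h4 : Continuous fun p : EE × II => con heisData (sh (-1 - n) p.1)
        (p.2 * aa (ht p.1 - n)) :=
      con_cont.comp (((sh (-1 - n)).continuous.comp continuous_fst).prodMk h2)
    exact pr.continuous.comp (con_cont.comp (((sh 1).continuous.comp h4).prodMk h3))⟩

lemma Kn_apply (n : ℤ) (e : EE) (u : II) : Kn n e u = pr (con heisData
      (sh 1 (con heisData (sh (-1 - n) e) (u * aa (ht e - n)))) (u * bb (ht e - n))) := rfl

lemma Kn_succ (n : ℤ) (e : EE) (h : ht e = n + 1) : Kn n e = Kn (n + 1) e := by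
  ext u
  rw [Kn_apply, Kn_apply, h]
  have e1 : ((n : ℝ) + 1 - n) = 1 := by ring
  have e2 : ((n : ℝ) + 1 - (n + 1 : ℤ)) = 0 := by push_cast; ring
  rw [e1, e2, aa_big (by norm_num), bb_one, aa_zero, bb_small (by norm_num), mul_zero, mul_one,
    con_zero, con_zero, pr_sh, sh_sh]
  have e3 : 1 + (-1 - (n + 1)) = -1 - n := by ring
  rw [e3]

/-- the equivariant homotopy, as a function -/
def KF (e : EE) : C(II, BB') := Kn ⌊ht e⌋ e

lemma KF_eq (n : ℤ) (e : EE) (h1 : (n : ℝ) ≤ ht e) (h2 : ht e ≤ n + 1) : KF e = Kn n e := by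
  unfold KF
  rcases lt_or_eq_of_le h2 with h | h
  · rw [Int.floor_eq_iff.2 ⟨h1, h⟩]
  · have : ⌊ht e⌋ = n + 1 := by
      rw [Int.floor_eq_iff]; push_cast; constructor <;> linarith
    rw [this, Kn_succ n e h]

lemma KF_cont : Continuous KF := by
  apply LocallyFinite.continuous (f := fun n : ℤ => ht ⁻¹' Set.Icc (n : ℝ) (n + 1))
  · intro e
    refine ⟨ht ⁻¹' Set.Ioo (ht e - 1) (ht e + 1),
      ht.continuous.continuousAt.preimage_mem_nhds (Ioo_mem_nhds (by linarith) (by linarith)), ?_⟩
    apply Set.Finite.subset (Set.finite_Icc (⌊ht e⌋ - 3) (⌊ht e⌋ + 3))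
    rintro n ⟨x, hx1, hx2⟩
    simp only [Set.mem_preimage, Set.mem_Icc, Set.mem_Ioo] at hx1 hx2
    have h3 := Int.floor_le (ht e)
    have h4 := Int.lt_floor_add_one (ht e)
    constructor
    · have : ((⌊ht e⌋ - 3 : ℤ) : ℝ) < (n : ℝ) := by push_cast; linarith
      exact le_of_lt (by exact_mod_cast this)
    · have : (n : ℝ) < ((⌊ht e⌋ + 3 : ℤ) : ℝ) := by push_cast; linarith
      exact le_of_lt (by exact_mod_cast this)
  · ext e
    simp only [Set.mem_iUnion, Set.mem_preimage, Set.mem_Icc, Set.mem_univ, iff_true]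
    exact ⟨⌊ht e⌋, Int.floor_le _, (Int.lt_floor_add_one _).le⟩
  · intro n
    exact isClosed_Icc.preimage ht.continuous
  · intro n
    apply (Kn n).continuous.continuousOn.congr
    intro e he
    exact KF_eq n e he.1 he.2

lemma KF_sh (n : ℤ) (e : EE) : KF (sh n e) = KF e := by
  unfold KF
  rw [ht_sh, Int.floor_add_intCast]
  ext u
  rw [Kn_apply, Kn_apply, ht_sh, sh_sh]
  have e1 : ht e + (n : ℝ) - ((⌊ht e⌋ + n : ℤ) : ℝ) = ht e - (⌊ht e⌋ : ℤ) := by push_cast; ring
  have e2 : -1 - (⌊ht e⌋ + n) + n = -1 - ⌊ht e⌋ := by ring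
  rw [e1, e2]

/-- the homotopy on the base -/
def KB : C(BB', C(II, BB')) := desc ⟨KF, KF_cont⟩ KF_sh

lemma KB_pr (e : EE) : KB (pr e) = KF e := desc_pr _ _ e

lemma KF_zero (e : EE) : KF e 0 = pr e := by
  unfold KF
  rw [Kn_apply, zero_mul, zero_mul, con_zero, con_zero, pr_sh, pr_sh]

/-- base point -/
def e0 : EE := pt (heisData.q 0) (heisData.h4 0 0)

lemma con_one' (e : EE) : con heisData e 1 = e0 := con_one heisData e

lemma ht_e0 : ht e0 = 0 := by
  unfold e0
  rw [ht_pt]
  change (((apex 0).2 : ℤ) : ℝ) = 0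
  simp [apex]

/-- the loop in the base -/
def loop (l : ℝ) : BB' := pr (con heisData (sh 1 e0) (bb l))

lemma loop_cont : Continuous loop :=
  pr.continuous.comp (((con heisData) (sh 1 e0)).continuous.comp bb_cont)

lemma loop_zero : loop 0 = pr e0 := by
  unfold loop
  rw [bb_small (by norm_num), con_one']

lemma loop_one : loop 1 = pr e0 := by
  unfold loop
  rw [bb_one, con_zero, pr_sh]

lemma KF_one (e : EE) : KF e 1 = loop (Int.fract (ht e)) := by
  unfold KF loop
  rw [Kn_apply, one_mul, one_mul]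
  change pr (con heisData (sh 1 (con heisData _ (aa (Int.fract (ht e))))) (bb (Int.fract (ht e)))) = _
  rcases le_total (Int.fract (ht e)) (1 / 2) with h | h
  · rw [bb_small h, con_one', con_one']
  · rw [aa_big h, con_one']

/-- the circle -/
abbrev CC : Type := AddCircle (1 : ℝ)

lemma coe_fract (l : ℝ) : ((Int.fract l : ℝ) : CC) = (l : CC) := by
  apply (QuotientAddGroup.eq).2
  rw [AddSubgroup.mem_zmultiples_iff]
  refine ⟨⌊l⌋, ?_⟩
  rw [zsmul_eq_mul, mul_one]
  unfold Int.fract
  ring

lemma coe_add_int (l : ℝ) (n : ℤ) : ((l + n : ℝ) : CC) = (l : CC) := by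
  rw [← coe_fract, Int.fract_add_intCast, coe_fract]

lemma liftIco_coe {Y : Type} (F : ℝ → Y) (l : ℝ) :
    AddCircle.liftIco 1 0 F (l : CC) = F (Int.fract l) := by
  rw [← coe_fract]
  exact AddCircle.liftIco_coe_apply ⟨Int.fract_nonneg l, by
    have := Int.fract_lt_one l; linarith⟩

/-- map from the circle -/
def gam : C(CC, BB') :=
  ⟨AddCircle.liftIco 1 0 loop, AddCircle.liftIco_continuous (by
    rw [zero_add, loop_zero, loop_one]) loop_cont.continuousOn⟩

lemma gam_coe (l : ℝ) : gam (l : CC) = loop (Int.fract l) := liftIco_coe loop l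

/-- map to the circle -/
def toC : C(BB', CC) :=
  desc ⟨fun e => ((ht e : ℝ) : CC), (AddCircle.continuous_mk' (1 : ℝ)).comp ht.continuous⟩ (by
    intro n e
    change ((ht (sh n e) : ℝ) : CC) = _
    rw [ht_sh, coe_add_int]
    rfl)

lemma toC_pr (e : EE) : toC (pr e) = ((ht e : ℝ) : CC) := desc_pr _ _ e

/-- first homotopy -/
def homL : (ContinuousMap.id BB').Homotopy (gam.comp toC) where
  toFun p := KB p.2 p.1
  continuous_toFun := by fun_prop
  map_zero_left b := by
    have h : (⟨fun b => KB b 0, (continuous_eval_const 0).comp KB.continuous⟩ : C(BB', BB')) =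
        ContinuousMap.id _ := by
      apply ext_B
      intro e
      change KB (pr e) 0 = pr e
      rw [KB_pr, KF_zero]
    exact DFunLike.congr_fun h b
  map_one_left b := by
    have h : (⟨fun b => KB b 1, (continuous_eval_const 1).comp KB.continuous⟩ : C(BB', BB')) =
        gam.comp toC := by
      apply ext_B
      intro e
      change KB (pr e) 1 = gam (toC (pr e))
      rw [KB_pr, KF_one, toC_pr, gam_coe]
    exact DFunLike.congr_fun h b

/-- height along the loop -/
def rho (l : ℝ) : ℝ := ht (con heisData (sh 1 e0) (bb l))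

lemma rho_cont : Continuous rho :=
  ht.continuous.comp (((con heisData) (sh 1 e0)).continuous.comp bb_cont)

lemma rho_zero : rho 0 = 0 := by
  unfold rho
  rw [bb_small (by norm_num), con_one', ht_e0]

lemma rho_one : rho 1 = 1 := by
  unfold rho
  rw [bb_one, con_zero, ht_sh, ht_e0]
  norm_num

lemma toC_loop (l : ℝ) : toC (loop l) = ((rho l : ℝ) : CC) := toC_pr _

/-- interpolation between the height along the loop and the identity -/
def GG : C(ℝ, C(II, CC)) :=
  ContinuousMap.curry ⟨fun p : ℝ × II => (((1 - (p.2 : ℝ)) * rho p.1 + (p.2 : ℝ) * p.1 : ℝ) : CC),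
    (AddCircle.continuous_mk' (1 : ℝ)).comp (by
      have := rho_cont
      fun_prop)⟩

lemma GG_apply (l : ℝ) (s : II) :
    GG l s = (((1 - (s : ℝ)) * rho l + (s : ℝ) * l : ℝ) : CC) := rfl

/-- the homotopy on the circle -/
def HR : C(CC, C(II, CC)) :=
  ⟨AddCircle.liftIco 1 0 GG, AddCircle.liftIco_continuous (by
    ext s
    rw [zero_add, GG_apply, GG_apply, rho_zero, rho_one]
    have h1 : (1 - (s : ℝ)) * 0 + (s : ℝ) * 0 = 0 := by ring
    have h2 : (1 - (s : ℝ)) * 1 + (s : ℝ) * 1 = 0 + ((1 : ℤ) : ℝ) := by push_cast; ring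
    rw [h1, h2, coe_add_int]) GG.continuous.continuousOn⟩

lemma HR_coe (l : ℝ) : HR (l : CC) = GG (Int.fract l) := liftIco_coe GG l

/-- second homotopy -/
def homR : (toC.comp gam).Homotopy (ContinuousMap.id CC) where
  toFun p := HR p.2 p.1
  continuous_toFun := by fun_prop
  map_zero_left c := by
    induction c using QuotientAddGroup.induction_on with
    | H l =>
      change HR (l : CC) 0 = toC (gam (l : CC))
      rw [HR_coe, gam_coe, toC_loop, GG_apply]
      congr 1
      simp
  map_one_left c := by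
    induction c using QuotientAddGroup.induction_on with
    | H l =>
      change HR (l : CC) 1 = (l : CC)
      rw [HR_coe, GG_apply, ← coe_fract l]
      congr 1
      simp

/-- the homotopy equivalence -/
def heq : ContinuousMap.HomotopyEquiv (SSet.toTop.obj (eCom Heis)) (AddCircle (1 : ℝ)) where
  toFun := toC
  invFun := gam
  left_inv := ⟨homL.symm⟩
  right_inv := ⟨homR⟩

end
end H464
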