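import Pool.Agent.H464.Points

open CategoryTheory Simplicial Opposite

namespace H464

noncomputable section

variable {S : Type} {r : S → S → Prop}

/-- combinatorial data for the contraction -/
structure Data (r : S → S → Prop) where
  idx : S → ℕ
  φ : ℕ → S → S
  q : ℕ → S
  symm : ∀ x y, r x y → r y x
  h1 : ∀ m x y, idx x ≤ m → idx y ≤ m → r x y → r x (φ m y)
  h2 : ∀ m m' x y, idx x ≤ m → idx y ≤ m → idx x ≤ m' → idx y ≤ m' → r x y → r (φ m x) (φ m' y)
  h3 : ∀ m k x, m ≤ k + 1 → idx x ≤ m → r (φ m x) (q k)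
  h4 : ∀ k l, r (q k) (q l)

/-- hat function -/
def hat (c : ℝ) (u : ℝ) : ℝ := max 0 (1 - |u - c|)

lemma hat_nonneg (c u : ℝ) : 0 ≤ hat c u := le_max_left _ _

lemma hat_cont (c : ℝ) : Continuous (hat c) := by unfold hat; fun_prop

lemma hat_ne {c u : ℝ} (h : hat c u ≠ 0) : |u - c| < 1 := by
  by_contra hn
  push Not at hn
  exact h (max_eq_left (by linarith))

lemma hat_pos {c u : ℝ} (h : |u - c| < 1) : 0 < hat c u :=
  lt_max_of_lt_right (by linarith)

/-- tail mass -/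
def UU (D : Data r) {N : ℕ} (g : Fin (N + 1) → S) (t : Fin (N + 1) → ℝ) (x : S) : ℝ :=
  ∑ j, if D.idx x ≤ D.idx (g j) then t j else 0

/-- tail cut-off -/
def kap (D : Data r) {N : ℕ} (g : Fin (N + 1) → S) (t : Fin (N + 1) → ℝ) (x : S) : ℝ :=
  max 0 (UU D g t x - 1 / 2)

/-- mean index -/
def nu (D : Data r) {N : ℕ} (g : Fin (N + 1) → S) (t : Fin (N + 1) → ℝ) : ℝ :=
  2 * ∑ j, t j * (D.idx (g j) : ℝ)

/-- vertex maps -/
def psi (D : Data r) (k : ℕ) (x : S) : S :=
  if k % 3 = 0 then x else if k % 3 = 1 then D.φ (k / 3) x else D.q (k / 3)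

/-- coefficients -/
def coef (k : ℕ) (u κ ν : ℝ) : ℝ :=
  if k % 3 = 0 then (if k = 0 then hat 0 u + hat 1 u * κ else 0)
  else if k % 3 = 1 then hat 2 u * κ * hat (k / 3 : ℕ) ν
  else hat 3 u * κ * hat (k / 3 : ℕ) ν + (if k = 2 then hat 4 u else 0)

lemma coef_nonneg (k : ℕ) (u κ ν : ℝ) (h : 0 ≤ κ) : 0 ≤ coef k u κ ν := by
  unfold coef
  have h0 := hat_nonneg 0 u
  have h1 := hat_nonneg 1 u
  have h2 := hat_nonneg 2 u
  have h3 := hat_nonneg 3 u
  have h4 := hat_nonneg 4 u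
  have h5 := hat_nonneg (k / 3 : ℕ) ν
  split_ifs <;> positivity

lemma coef_ne {k : ℕ} {u κ ν : ℝ} (h : coef k u κ ν ≠ 0) :
    (k % 3 = 0 ∧ k = 0 ∧ u < 2 ∧ (κ ≠ 0 ∨ u < 1)) ∨
    (k % 3 = 1 ∧ 1 < u ∧ u < 3 ∧ κ ≠ 0 ∧ |ν - (k / 3 : ℕ)| < 1) ∨
    (k % 3 = 2 ∧ 2 < u ∧ ((κ ≠ 0 ∧ |ν - (k / 3 : ℕ)| < 1) ∨ (3 < u ∧ k = 2))) := by
  unfold coef at h
  split_ifs at h with h0 h1 h2 h3
  · left
    refine ⟨h0, h1, ?_⟩
    by_cases h4 : hat 0 u = 0
    · have h5 : hat 1 u * κ ≠ 0 := by rw [h4] at h; simpa using h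
      have h6 := hat_ne (left_ne_zero_of_mul h5)
      rw [abs_lt] at h6
      exact ⟨by linarith [h6.2], Or.inl (right_ne_zero_of_mul h5)⟩
    · have h6 := hat_ne h4
      rw [abs_lt] at h6
      exact ⟨by linarith [h6.2], Or.inr (by linarith [h6.2])⟩
  · exact absurd rfl h
  · right; left
    have h5 := hat_ne (right_ne_zero_of_mul h)
    have h6 := left_ne_zero_of_mul h
    have h7 := hat_ne (left_ne_zero_of_mul h6)
    rw [abs_lt] at h7
    exact ⟨h2, by linarith [h7.1], by linarith [h7.2], right_ne_zero_of_mul h6, h5⟩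
  · right; right
    refine ⟨by omega, ?_⟩
    by_cases h4 : hat 3 u * κ * hat (k / 3 : ℕ) ν = 0
    · have h5 : hat 4 u ≠ 0 := by rw [h4] at h; simpa using h
      have h6 := hat_ne h5
      rw [abs_lt] at h6
      exact ⟨by linarith [h6.1], Or.inr ⟨by linarith [h6.1], h3⟩⟩
    · have h5 := hat_ne (right_ne_zero_of_mul h4)
      have h6 := left_ne_zero_of_mul h4
      have h7 := hat_ne (left_ne_zero_of_mul h6)
      rw [abs_lt] at h7
      exact ⟨by linarith [h7.1], Or.inl ⟨right_ne_zero_of_mul h6, h5⟩⟩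
  · right; right
    refine ⟨by omega, ?_⟩
    rw [add_zero] at h
    have h5 := hat_ne (right_ne_zero_of_mul h)
    have h6 := left_ne_zero_of_mul h
    have h7 := hat_ne (left_ne_zero_of_mul h6)
    rw [abs_lt] at h7
    exact ⟨by linarith [h7.1], Or.inl ⟨right_ne_zero_of_mul h6, h5⟩⟩

lemma kap_nonneg (D : Data r) {N : ℕ} (g : Fin (N + 1) → S) (t : Fin (N + 1) → ℝ) (x : S) :
    0 ≤ kap D g t x := le_max_left _ _

lemma kap_ne (D : Data r) {N : ℕ} (g : Fin (N + 1) → S) (t : stdSimplex ℝ (Fin (N + 1))) (x : S)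
    (h : kap D g t x ≠ 0) : (D.idx x : ℝ) ≤ nu D g t := by
  have hU : 1 / 2 < UU D g t x := by
    by_contra hn
    push Not at hn
    exact h (max_eq_left (by linarith))
  have h1 : (D.idx x : ℝ) * UU D g t x ≤ ∑ j, t j * (D.idx (g j) : ℝ) := by
    unfold UU
    rw [Finset.mul_sum]
    apply Finset.sum_le_sum
    intro j _
    have h2 : 0 ≤ t j := t.2.1 j
    split_ifs with h3
    · rw [mul_comm]
      exact mul_le_mul_of_nonneg_left (by exact_mod_cast h3) h2
    · rw [mul_zero]; positivity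
  unfold nu
  have h3 : (0 : ℝ) ≤ D.idx x := by positivity
  nlinarith

lemma nu_nonneg (D : Data r) {N : ℕ} (g : Fin (N + 1) → S) (t : stdSimplex ℝ (Fin (N + 1))) :
    0 ≤ nu D g t := by
  unfold nu
  have : 0 ≤ ∑ j, t j * (D.idx (g j) : ℝ) := by
    apply Finset.sum_nonneg
    intro j _
    have h2 : 0 ≤ t j := t.2.1 j
    positivity
  linarith

lemma nu_le (D : Data r) {N : ℕ} (g : Fin (N + 1) → S) (t : stdSimplex ℝ (Fin (N + 1))) :
    nu D g t ≤ 2 * (∑ j, D.idx (g j) : ℕ) := by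
  unfold nu
  have : ∑ j, t j * (D.idx (g j) : ℝ) ≤ ((∑ j, D.idx (g j) : ℕ) : ℝ) := by
    push_cast
    apply Finset.sum_le_sum
    intro j _
    have h2 : t j ≤ 1 := stdSimplex.le_one t j
    have h3 : (0 : ℝ) ≤ D.idx (g j) := by positivity
    nlinarith
  linarith

lemma exists_kap (D : Data r) {N : ℕ} (g : Fin (N + 1) → S) (t : stdSimplex ℝ (Fin (N + 1))) :
    ∃ i, t i ≠ 0 ∧ 0 < kap D g t (g i) := by
  classical
  have hne : ((Finset.univ : Finset (Fin (N + 1))).filter fun i => t i ≠ 0).Nonempty := by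
    by_contra hn
    rw [Finset.not_nonempty_iff_eq_empty, Finset.filter_eq_empty_iff] at hn
    have h1 : ∑ i, t i = 1 := stdSimplex.sum_eq_one t
    have : ∑ i, t i = 0 := Finset.sum_eq_zero fun i hi => by simpa using hn hi
    rw [this] at h1; exact zero_ne_one h1
  obtain ⟨i, hi, hmin⟩ := Finset.exists_min_image _ (fun i => D.idx (g i)) hne
  simp only [Finset.mem_filter, Finset.mem_univ, true_and] at hi hmin
  refine ⟨i, hi, ?_⟩
  have hU : UU D g t (g i) = 1 := by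
    unfold UU
    rw [← stdSimplex.sum_eq_one t]
    apply Finset.sum_congr rfl
    intro j _
    split_ifs with h2
    · rfl
    · by_contra h3
      exact h2 (hmin j (Ne.symm h3))
  unfold kap
  rw [hU]
  norm_num

/-- positions -/
abbrev JJ (N : ℕ) : Type := ℕ ×ₗ Fin (N + 1)

/-- vertex at each position -/
def sJ (D : Data r) {N : ℕ} (g : Fin (N + 1) → S) : JJ N → S :=
  fun j => psi D (ofLex j).1 (g (ofLex j).2)

/-- weight at each position -/
def wJ (D : Data r) {N : ℕ} (g : Fin (N + 1) → S) (t : Fin (N + 1) → ℝ) (u : ℝ) : JJ N → ℝ :=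
  fun j => t (ofLex j).2 * coef (ofLex j).1 u (kap D g t (g (ofLex j).2)) (nu D g t)

/-- bound for the positions carrying weight -/
def bd (D : Data r) {N : ℕ} (g : Fin (N + 1) → S) : ℕ := 3 * (2 * (∑ j, D.idx (g j)) + 2)

lemma coef_bd (D : Data r) {N : ℕ} (g : Fin (N + 1) → S) (t : stdSimplex ℝ (Fin (N + 1))) (u : ℝ)
    (k : ℕ) (x : S) (h : coef k u (kap D g t x) (nu D g t) ≠ 0) : k < bd D g := by
  have h1 := nu_le D g t
  have key : |nu D g t - (k / 3 : ℕ)| < 1 → k < bd D g := by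
    intro h2
    rw [abs_lt] at h2
    have h3 : ((k / 3 : ℕ) : ℝ) < ((2 * (∑ j, D.idx (g j)) + 1 : ℕ) : ℝ) := by
      have := h2.1
      push_cast at h1 ⊢
      linarith
    have h4 : k / 3 < 2 * (∑ j, D.idx (g j)) + 1 := by exact_mod_cast h3
    unfold bd
    omega
  rcases coef_ne h with h2 | h2 | h2
  · unfold bd; omega
  · exact key h2.2.2.2.2
  · rcases h2.2.2 with h3 | h3
    · exact key h3.2
    · unfold bd; omega

/-- the finite set of relevant positions -/
def PJ (N B : ℕ) : Finset (JJ N) :=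
  (Finset.range B ×ˢ (Finset.univ : Finset (Fin (N + 1)))).map toLex.toEmbedding

lemma mem_PJ {N B : ℕ} (j : JJ N) : j ∈ PJ N B ↔ (ofLex j).1 < B := by
  unfold PJ
  simp only [Finset.mem_map, Finset.mem_product, Finset.mem_range, Finset.mem_univ, and_true,
    Equiv.coe_toEmbedding]
  constructor
  · rintro ⟨a, ha, rfl⟩; exact ha
  · intro h; exact ⟨ofLex j, h, rfl⟩

lemma wJ_mem (D : Data r) {N : ℕ} (g : Fin (N + 1) → S) (t : stdSimplex ℝ (Fin (N + 1))) (u : ℝ)
    (j : JJ N) (h : wJ D g t u j ≠ 0) : j ∈ PJ N (bd D g) := by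
  rw [mem_PJ]
  exact coef_bd D g t u _ _ (right_ne_zero_of_mul h)

lemma good_wJ (D : Data r) {N : ℕ} (g : Fin (N + 1) → S) (hg : ∀ i j, r (g i) (g j))
    (t : stdSimplex ℝ (Fin (N + 1))) (u : ℝ) (hu : 0 ≤ u) (hu' : u ≤ 4) :
    Good r (sJ D g) (wJ D g t u) := by
  have ht : ∀ i, 0 ≤ t i := fun i => t.2.1 i
  refine ⟨?_, ?_, ?_, ?_⟩
  · intro j
    exact mul_nonneg (ht _) (coef_nonneg _ _ _ _ (kap_nonneg _ _ _ _))
  · exact Set.Finite.subset (Finset.finite_toSet (PJ N (bd D g)))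
      (fun j hj => wJ_mem D g t u j hj)
  · obtain ⟨i, hi, hk⟩ := exists_kap D g t
    have hn := nu_nonneg D g t
    have hfl : |nu D g t - (⌊nu D g t⌋₊ : ℕ)| < 1 := by
      rw [abs_lt]
      constructor
      · linarith [Nat.floor_le hn]
      · linarith [Nat.lt_floor_add_one (nu D g t)]
    rcases lt_or_ge u 1 with h1 | h1
    · refine ⟨toLex (0, i), mul_ne_zero hi (ne_of_gt ?_)⟩
      change 0 < coef 0 u _ _
      simp only [coef, Nat.zero_mod, if_true]
      have h2 : 0 < hat 0 u := hat_pos (by rw [abs_lt]; constructor <;> linarith)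
      have h3 := hat_nonneg 1 u
      positivity
    rcases lt_or_ge u 2 with h2 | h2
    · refine ⟨toLex (0, i), mul_ne_zero hi (ne_of_gt ?_)⟩
      change 0 < coef 0 u (kap D g t (g i)) _
      simp only [coef, Nat.zero_mod, if_true]
      have h2 : 0 < hat 1 u := hat_pos (by rw [abs_lt]; constructor <;> linarith)
      have h3 := hat_nonneg 0 u
      positivity
    rcases lt_or_ge u 3 with h3 | h3
    · refine ⟨toLex (3 * ⌊nu D g t⌋₊ + 1, i), mul_ne_zero hi (ne_of_gt ?_)⟩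
      change 0 < coef (3 * ⌊nu D g t⌋₊ + 1) u (kap D g t (g i)) (nu D g t)
      have e1 : (3 * ⌊nu D g t⌋₊ + 1) % 3 = 1 := by omega
      have e2 : (3 * ⌊nu D g t⌋₊ + 1) / 3 = ⌊nu D g t⌋₊ := by omega
      simp only [coef, e1, e2, if_true, one_ne_zero, if_false]
      have h2 : 0 < hat 2 u := hat_pos (by rw [abs_lt]; constructor <;> linarith)
      have h4 := hat_pos hfl
      positivity
    rcases lt_or_ge u 4 with h4 | h4
    · refine ⟨toLex (3 * ⌊nu D g t⌋₊ + 2, i), mul_ne_zero hi (ne_of_gt ?_)⟩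
      change 0 < coef (3 * ⌊nu D g t⌋₊ + 2) u (kap D g t (g i)) (nu D g t)
      have e1 : (3 * ⌊nu D g t⌋₊ + 2) % 3 = 2 := by omega
      have e2 : (3 * ⌊nu D g t⌋₊ + 2) / 3 = ⌊nu D g t⌋₊ := by omega
      simp only [coef, e1, e2, if_true, if_false, OfNat.ofNat_ne_zero, OfNat.ofNat_ne_one]
      have h2 : 0 < hat 3 u := hat_pos (by rw [abs_lt]; constructor <;> linarith)
      have h4 := hat_pos hfl
      have h5 := hat_nonneg 4 u
      have h6 : (0 : ℝ) ≤ (if 3 * ⌊nu D g t⌋₊ + 2 = 2 then hat 4 u else 0) := by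
        split_ifs <;> simp [h5]
      positivity
    · refine ⟨toLex (2, i), mul_ne_zero hi (ne_of_gt ?_)⟩
      change 0 < coef 2 u (kap D g t (g i)) (nu D g t)
      simp only [coef]
      norm_num
      have h2 : 0 < hat 4 u := hat_pos (by rw [abs_lt]; constructor <;> linarith)
      have h3 := hat_nonneg 3 u
      have h4 := hat_nonneg 0 (nu D g t)
      positivity
  · intro i j hi hj
    have hci := coef_ne (right_ne_zero_of_mul hi)
    have hcj := coef_ne (right_ne_zero_of_mul hj)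
    have hlev : ∀ x k, kap D g t x ≠ 0 → |nu D g t - (k : ℕ)| < 1 → D.idx x ≤ k := by
      intro x k h1 h2
      have h3 := kap_ne D g t x h1
      rw [abs_lt] at h2
      have h4 : (D.idx x : ℝ) < ((k + 1 : ℕ) : ℝ) := by push_cast; linarith [h2.2]
      have h5 : D.idx x < k + 1 := by exact_mod_cast h4
      omega
    have hg' := hg (ofLex i).2 (ofLex j).2
    have hlt : ∀ k l : ℕ, |nu D g t - (k : ℕ)| < 1 → |nu D g t - (l : ℕ)| < 1 → k ≤ l + 1 := by
      intro k l h1 h2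
      rw [abs_lt] at h1 h2
      have h4 : (k : ℝ) < ((l + 2 : ℕ) : ℝ) := by push_cast; linarith [h2.2, h1.1]
      have h5 : k < l + 2 := by exact_mod_cast h4
      omega
    simp only [sJ, psi]
    rcases hci with ⟨a1, a0, a2, a3⟩ | ⟨a1, a2, a3, a4, a5⟩ | ⟨a1, a2, a3⟩ <;>
      rcases hcj with ⟨b1, b0, b2, b3⟩ | ⟨b1, b2, b3, b4, b5⟩ | ⟨b1, b2, b3⟩ <;>
      simp only [a1, b1, if_true, if_false, one_ne_zero, OfNat.ofNat_ne_zero, OfNat.ofNat_ne_one]
    · exact hg'
    · have a4 : kap D g t (g (ofLex i).2) ≠ 0 := by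
        rcases a3 with h | h
        · exact h
        · linarith
      exact D.h1 _ _ _ (hlev _ _ a4 b5) (hlev _ _ b4 b5) hg'
    · linarith
    · have b4 : kap D g t (g (ofLex j).2) ≠ 0 := by
        rcases b3 with h | h
        · exact h
        · linarith
      exact D.symm _ _ (D.h1 _ _ _ (hlev _ _ b4 a5) (hlev _ _ a4 a5) (D.symm _ _ hg'))
    · exact D.h2 _ _ _ _ (hlev _ _ a4 a5) (hlev _ _ b4 a5) (hlev _ _ a4 b5) (hlev _ _ b4 b5) hg'
    · have b5 : |nu D g t - ((ofLex j).1 / 3 : ℕ)| < 1 := by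
        rcases b3 with h | h
        · exact h.2
        · linarith
      exact D.h3 _ _ _ (hlt _ _ a5 b5) (hlev _ _ a4 a5)
    · linarith
    · have a5 : |nu D g t - ((ofLex i).1 / 3 : ℕ)| < 1 := by
        rcases a3 with h | h
        · exact h.2
        · linarith
      exact D.symm _ _ (D.h3 _ _ _ (hlt _ _ b5 a5) (hlev _ _ b4 b5))
    · exact D.h4 _ _

end
end H464
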