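import Mathlib

/-!
# The simplicial set of affinely commuting tuples of a group
-/

open CategoryTheory Opposite Pointwise

namespace H464

/-- The simplicial set whose `n`-simplices are the tuples `(g_0, ..., g_n)` of elements of `G` lying
in a common left coset `x • A` of an abelian subgroup `A`; the simplicial operators are given by
reindexing, so that faces delete entries and degeneracies repeat entries. -/
def eCom (G : Type) [Group G] : SSet.{0} where
  obj n := {g : Fin (n.unop.len + 1) → G // ∃ (x : G) (A : Subgroup G),
    (∀ a ∈ A, ∀ b ∈ A, a * b = b * a) ∧ ∀ i, g i ∈ x • (A : Set G)}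
  map θ := ↾fun g => ⟨g.1 ∘ θ.unop.toOrderHom, by
    obtain ⟨x, A, h1, h2⟩ := g.2
    exact ⟨x, A, h1, fun i => h2 _⟩⟩

end H464
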