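import Pool.Agent.H464.HeisData
import Pool.Agent.H464.ECom

open CategoryTheory Opposite Pointwise

namespace H464

noncomputable section

open Heis

/-- the cocycle identity on simplices -/
lemma eCom_om {n : SimplexCategoryᵒᵖ} (g : (eCom Heis).obj n) (k i j : Fin (n.unop.len + 1)) :
    om (g.1 i) (g.1 j) = om (g.1 k) (g.1 j) - om (g.1 k) (g.1 i) := by
  obtain ⟨x, A, h1, h2⟩ := g.2
  have h3 : ∀ i, x⁻¹ * g.1 i ∈ A := fun i => by
    have := h2 i
    rwa [mem_leftCoset_iff] at this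
  have h4 : ∀ i j, om (g.1 i) (g.1 j) = om x (g.1 j) - om x (g.1 i) := by
    intro i j
    have h5 := (comm_iff _ _).1 (h1 _ (h3 i) _ (h3 j))
    rw [om_inv_mul] at h5
    linarith
  rw [h4 i j, h4 k j, h4 k i]
  ring

lemma proj_mem {n : SimplexCategoryᵒᵖ} (g : Fin (n.unop.len + 1) → V)
    (hg : ∀ i j, adj (g i) (g j)) : ∃ (x : Heis) (A : Subgroup Heis),
    (∀ a ∈ A, ∀ b ∈ A, a * b = b * a) ∧ ∀ i, (g i).1 ∈ x • (A : Set Heis) := by
  refine ⟨(g 0).1, Subgroup.closure (Set.range fun i => (g 0).1⁻¹ * (g i).1), ?_, ?_⟩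
  · have hc : ∀ x ∈ (Set.range fun i => (g 0).1⁻¹ * (g i).1), ∀ y ∈ (Set.range fun i =>
        (g 0).1⁻¹ * (g i).1), x * y = y * x := by
      rintro _ ⟨i, rfl⟩ _ ⟨j, rfl⟩
      rw [comm_iff, om_inv_mul]
      have h1 := hg i j
      have h2 := hg 0 j
      have h3 := hg 0 i
      unfold adj at h1 h2 h3
      linarith
    intro a ha b hb
    have h := Subgroup.isMulCommutative_closure hc
    have := h.is_comm.comm ⟨a, ha⟩ ⟨b, hb⟩
    exact congrArg Subtype.val this
  · intro i
    rw [mem_leftCoset_iff]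
    exact Subgroup.subset_closure ⟨i, rfl⟩

/-- projection of a simplex -/
def projS {n : SimplexCategoryᵒᵖ} (g : Fin (n.unop.len + 1) → V)
    (hg : ∀ i j, adj (g i) (g j)) : (eCom Heis).obj n := ⟨fun i => (g i).1, proj_mem g hg⟩

/-- the total space -/
abbrev EE : Type := SSet.toTop.obj (flag adj)

/-- the base space -/
abbrev BB' : Type := SSet.toTop.obj (eCom Heis)

/-- shift of a vertex -/
def shV (n : ℤ) (x : V) : V := (x.1, x.2 + n)

lemma shV_adj (n : ℤ) {x y : V} (h : adj x y) : adj (shV n x) (shV n y) := by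
  unfold adj shV at *
  simp only
  linarith

/-- the deck transformations -/
def sh (n : ℤ) : C(EE, EE) :=
  glue (flag adj) _ (fun _ x => chiG (shV n ∘ x.1) (fun i j => shV_adj n (x.2 i j))) (by
    intro m k θ x
    ext t
    exact chiG_comp (shV n ∘ x.1) (fun i j => shV_adj n (x.2 i j)) θ.unop.toOrderHom t)

lemma sh_chi (n : ℤ) {m : SimplexCategoryᵒᵖ} (g : Fin (m.unop.len + 1) → V)
    (hg : ∀ i j, adj (g i) (g j)) (t : stdSimplex ℝ (Fin (m.unop.len + 1))) :
    sh n (chiG g hg t) = chiG (shV n ∘ g) (fun i j => shV_adj n (hg i j)) t := by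
  have h := glue_chi (flag adj) _ (fun _ x => chiG (shV n ∘ x.1) (fun i j => shV_adj n (x.2 i j))) (by
    intro m k θ x
    ext t
    exact chiG_comp (shV n ∘ x.1) (fun i j => shV_adj n (x.2 i j)) θ.unop.toOrderHom t) m
      (simplexOf g hg)
  exact DFunLike.congr_fun h t

lemma ext_E {Y : Type} [TopologicalSpace Y] (f g : C(EE, Y))
    (h : ∀ (n : SimplexCategoryᵒᵖ) (x : Fin (n.unop.len + 1) → V) (hx : ∀ i j, adj (x i) (x j))
      (t : stdSimplex ℝ (Fin (n.unop.len + 1))), f (chiG x hx t) = g (chiG x hx t)) (e : EE) :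
    f e = g e := by
  have : f = g := by
    apply hom_ext
    intro n x
    ext t
    exact h n x.1 x.2 t
  rw [this]

lemma sh_sh (m n : ℤ) (e : EE) : sh m (sh n e) = sh (m + n) e := by
  apply ext_E ((sh m).comp (sh n)) (sh (m + n))
  intro k x hx t
  change sh m (sh n (chiG x hx t)) = _
  rw [sh_chi, sh_chi, sh_chi]
  congr 1
  apply chiG_congr
  funext i
  simp only [Function.comp, shV]
  rw [add_assoc, add_comm n m]

lemma sh_zero (e : EE) : sh 0 e = e := by
  apply ext_E (sh 0) (ContinuousMap.id _)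
  intro k x hx t
  rw [sh_chi]
  change _ = chiG x hx t
  congr 1
  apply chiG_congr
  funext i
  simp [Function.comp, shV]

/-- the projection -/
def pr : C(EE, BB') :=
  glue (flag adj) _ (fun _ x => chi (eCom Heis) (projS x.1 x.2)) (by
    intro m k θ x
    exact chi_map (eCom Heis) θ (projS x.1 x.2))

lemma pr_chi {m : SimplexCategoryᵒᵖ} (g : Fin (m.unop.len + 1) → V)
    (hg : ∀ i j, adj (g i) (g j)) (t : stdSimplex ℝ (Fin (m.unop.len + 1))) :
    pr (chiG g hg t) = chi (eCom Heis) (projS g hg) t := by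
  have h := glue_chi (flag adj) _
    (fun _ x => chi (eCom Heis) (projS x.1 x.2)) (by
    intro m k θ x
    exact chi_map (eCom Heis) θ (projS x.1 x.2)) m (simplexOf g hg)
  exact DFunLike.congr_fun h t

lemma pr_sh (n : ℤ) (e : EE) : pr (sh n e) = pr e := by
  apply ext_E (pr.comp (sh n)) pr
  intro k x hx t
  change pr (sh n (chiG x hx t)) = _
  rw [sh_chi, pr_chi, pr_chi]
  rfl

/-- height -/
def ht : C(EE, ℝ) :=
  glue (flag adj) _ (fun _ x => ⟨fun t => ∑ i, t i * ((x.1 i).2 : ℝ), by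
      apply continuous_finsetSum
      intro i _
      exact (coord_cont i).mul continuous_const⟩) (by
    intro m k θ x
    ext t
    exact (sum_push θ.unop.toOrderHom t (fun i => ((x.1 i).2 : ℝ))).symm)

lemma ht_chi {m : SimplexCategoryᵒᵖ} (g : Fin (m.unop.len + 1) → V)
    (hg : ∀ i j, adj (g i) (g j)) (t : stdSimplex ℝ (Fin (m.unop.len + 1))) :
    ht (chiG g hg t) = ∑ i, t i * ((g i).2 : ℝ) := by
  have h := glue_chi (flag adj) _ (fun _ x => ⟨fun t => ∑ i, t i * ((x.1 i).2 : ℝ), by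
      apply continuous_finsetSum
      intro i _
      exact (coord_cont i).mul continuous_const⟩) (by
    intro m k θ x
    ext t
    exact (sum_push θ.unop.toOrderHom t (fun i => ((x.1 i).2 : ℝ))).symm) m (simplexOf g hg)
  exact DFunLike.congr_fun h t

lemma ht_sh (n : ℤ) (e : EE) : ht (sh n e) = ht e + n := by
  apply ext_E (ht.comp (sh n)) (⟨fun e => ht e + n, by fun_prop⟩ : C(EE, ℝ))
  intro k x hx t
  change ht (sh n (chiG x hx t)) = ht (chiG x hx t) + n
  rw [sh_chi, ht_chi, ht_chi]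
  simp only [Function.comp, shV]
  push_cast
  simp only [mul_add, Finset.sum_add_distrib, ← Finset.sum_mul]
  rw [stdSimplex.sum_eq_one, one_mul]

lemma ht_pt (x : V) (hx : adj x x) : ht (pt x hx) = x.2 := by
  unfold pt
  rw [ht_chi, ← Finset.sum_mul, stdSimplex.sum_eq_one, one_mul]

/-- lift of a simplex -/
def lift {n : SimplexCategoryᵒᵖ} (g : (eCom Heis).obj n) : Fin (n.unop.len + 1) → V :=
  fun i => (g.1 i, om (g.1 0) (g.1 i))

lemma lift_adj {n : SimplexCategoryᵒᵖ} (g : (eCom Heis).obj n) (i j : Fin (n.unop.len + 1)) :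
    adj (lift g i) (lift g j) := by
  unfold adj lift
  simp only
  rw [eCom_om g 0 i j]

/-- descent of invariant maps -/
def desc {Y : Type} [TopologicalSpace Y] (F : C(EE, Y)) (hF : ∀ n e, F (sh n e) = F e) :
    C(BB', Y) :=
  glue (eCom Heis) Y (fun _ g => F.comp (chiG (lift g) (lift_adj g))) (by
    intro n m θ g
    ext t
    change F (chiG (lift ((eCom Heis).map θ g)) _ t) =
      F (chiG (lift g) (lift_adj g) (stdSimplex.map θ.unop.toOrderHom t))
    rw [← chiG_comp, ← hF (-(om (g.1 0) (g.1 (θ.unop.toOrderHom 0)))) (chiG (lift g ∘ _) _ t),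
      sh_chi]
    congr 2
    apply chiG_congr
    funext i
    apply Prod.ext
    · rfl
    · change om (g.1 (θ.unop.toOrderHom 0)) (g.1 (θ.unop.toOrderHom i)) =
        om (g.1 0) (g.1 (θ.unop.toOrderHom i)) + -(om (g.1 0) (g.1 (θ.unop.toOrderHom 0)))
      rw [eCom_om g 0]
      ring)

lemma desc_chi {Y : Type} [TopologicalSpace Y] (F : C(EE, Y)) (hF : ∀ n e, F (sh n e) = F e)
    {n : SimplexCategoryᵒᵖ} (g : (eCom Heis).obj n) (t : stdSimplex ℝ (Fin (n.unop.len + 1))) :
    desc F hF (chi (eCom Heis) g t) = F (chiG (lift g) (lift_adj g) t) := by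
  have h : (desc F hF).comp (chi (eCom Heis) g) = F.comp (chiG (lift g) (lift_adj g)) :=
    glue_chi (eCom Heis) Y (fun _ g => F.comp (chiG (lift g) (lift_adj g))) _ n g
  exact DFunLike.congr_fun h t

lemma desc_pr {Y : Type} [TopologicalSpace Y] (F : C(EE, Y)) (hF : ∀ n e, F (sh n e) = F e)
    (e : EE) : desc F hF (pr e) = F e := by
  apply ext_E ((desc F hF).comp pr) F
  intro k x hx t
  change desc F hF (pr (chiG x hx t)) = _
  rw [pr_chi, desc_chi, ← hF (-(x 0).2) (chiG x hx t), sh_chi]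
  congr 2
  apply chiG_congr
  funext i
  apply Prod.ext
  · rfl
  · change om (x 0).1 (x i).1 = (x i).2 + -(x 0).2
    have := hx 0 i
    unfold adj at this
    linarith

lemma ext_B {Y : Type} [TopologicalSpace Y] (f g : C(BB', Y))
    (h : ∀ e : EE, f (pr e) = g (pr e)) : f = g := by
  apply hom_ext
  intro n x
  ext t
  have h1 := h (chiG (lift x) (lift_adj x) t)
  rw [pr_chi] at h1
  exact h1

end
end H464
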