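import Pool.Agent.H464.Homotopy

open CategoryTheory Simplicial Opposite

namespace H464

noncomputable section

variable {S : Type} {r : S → S → Prop}

/-- row of positions -/
def row (N k : ℕ) : Finset (JJ N) :=
  (Finset.univ : Finset (Fin (N + 1))).map
    ⟨fun i => (toLex (k, i) : JJ N), fun a b h => by
      have := congrArg (fun j : JJ N => (ofLex j).2) h
      exact this⟩

lemma mem_row {N k : ℕ} (j : JJ N) : j ∈ row N k ↔ (ofLex j).1 = k := by
  unfold row
  simp only [Finset.mem_map, Finset.mem_univ, true_and, Function.Embedding.coeFn_mk]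
  constructor
  · rintro ⟨a, rfl⟩; rfl
  · intro h; exact ⟨(ofLex j).2, by rw [← h]; rfl⟩

lemma sum_row {N k : ℕ} (W : JJ N → ℝ) : ∑ j ∈ row N k, W j = ∑ i, W (toLex (k, i)) := by
  unfold row
  rw [Finset.sum_map]
  rfl

lemma coef_zero (k : ℕ) (κ ν : ℝ) : coef k 0 κ ν = if k = 0 then 1 else 0 := by
  split_ifs with h
  · subst h
    simp [coef, hat]
  · by_contra hne
    rcases coef_ne hne with h1 | h1 | h1
    · exact h h1.2.1
    · linarith [h1.2.1]
    · linarith [h1.2.1]

lemma coef_four (k : ℕ) (κ ν : ℝ) : coef k 4 κ ν = if k = 2 then 1 else 0 := by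
  have h3 : hat 3 4 = 0 := by
    unfold hat; norm_num
  split_ifs with h
  · subst h
    simp only [coef]
    norm_num [h3]
    simp [hat]
  · by_contra hne
    rcases coef_ne hne with h1 | h1 | h1
    · linarith [h1.2.2.1]
    · linarith [h1.2.2.1]
    · unfold coef at hne
      rw [if_neg (by omega), if_neg (by omega), h3, if_neg h] at hne
      simp at hne

lemma HC_zero (D : Data r) {n : SimplexCategoryᵒᵖ} (g : Fin (n.unop.len + 1) → S)
    (hg : ∀ i j, r (g i) (g j)) (t : stdSimplex ℝ (Fin (n.unop.len + 1))) :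
    HC D g hg (t, 0) = chiG g hg t := by
  classical
  rw [HC_apply, chiG_eq_R]
  have hw : ∀ j, wJ D g t (4 * ((0 : unitInterval) : ℝ)) j =
      t (ofLex j).2 * if (ofLex j).1 = 0 then 1 else 0 := by
    intro j
    unfold wJ
    rw [Set.Icc.coe_zero, mul_zero, coef_zero]
  apply R_nat (θ := fun j : JJ n.unop.len => (ofLex j).2) (P := row n.unop.len 0)
  · intro i j hi hj hij
    rw [hw] at hi hj
    have hi' : (ofLex i).1 = 0 := by
      by_contra h; rw [if_neg h, mul_zero] at hi; exact hi rfl
    have hj' : (ofLex j).1 = 0 := by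
      by_contra h; rw [if_neg h, mul_zero] at hj; exact hj rfl
    rw [Prod.Lex.le_iff] at hij
    rcases hij with h | h
    · omega
    · exact h.2
  · intro j hj
    rw [hw] at hj
    have hj' : (ofLex j).1 = 0 := by
      by_contra h; rw [if_neg h, mul_zero] at hj; exact hj rfl
    unfold sJ psi
    rw [hj']
    rfl
  · intro j hj
    rw [hw] at hj
    rw [mem_row]
    by_contra h; rw [if_neg h, mul_zero] at hj; exact hj rfl
  · intro i
    rw [Finset.sum_filter, sum_row]
    simp only [hw, ofLex_toLex, if_true, mul_one]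
    simp

lemma HC_one (D : Data r) {n : SimplexCategoryᵒᵖ} (g : Fin (n.unop.len + 1) → S)
    (hg : ∀ i j, r (g i) (g j)) (t : stdSimplex ℝ (Fin (n.unop.len + 1))) :
    HC D g hg (t, 1) = pt (D.q 0) (D.h4 0 0) := by
  classical
  rw [HC_apply]
  have hw : ∀ j, wJ D g t (4 * ((1 : unitInterval) : ℝ)) j =
      t (ofLex j).2 * if (ofLex j).1 = 2 then 1 else 0 := by
    intro j
    unfold wJ
    rw [Set.Icc.coe_one, mul_one, coef_four]
  apply R_eq_pt (P := row n.unop.len 2)
  · intro j hj
    rw [hw] at hj
    have hj' : (ofLex j).1 = 2 := by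
      by_contra h; rw [if_neg h, mul_zero] at hj; exact hj rfl
    unfold sJ psi
    rw [hj']
    rfl
  · intro j hj
    rw [hw] at hj
    rw [mem_row]
    by_contra h; rw [if_neg h, mul_zero] at hj; exact hj rfl
  · rw [sum_row]
    simp only [hw, ofLex_toLex, if_true, mul_one]
    exact stdSimplex.sum_eq_one t

lemma con_zero (D : Data r) (e : SSet.toTop.obj (flag r)) : con D e 0 = e := by
  have h : (⟨fun e => con D e 0, (continuous_eval_const 0).comp (con D).continuous⟩ :
      C(SSet.toTop.obj (flag r), SSet.toTop.obj (flag r))) = ContinuousMap.id _ := by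
    apply hom_ext
    intro n x
    ext t
    change con D (chiG x.1 x.2 t) 0 = chiG x.1 x.2 t
    rw [con_chi, HC_zero]
  exact DFunLike.congr_fun h e

lemma con_one (D : Data r) (e : SSet.toTop.obj (flag r)) : con D e 1 = pt (D.q 0) (D.h4 0 0) := by
  have h : (⟨fun e => con D e 1, (continuous_eval_const 1).comp (con D).continuous⟩ :
      C(SSet.toTop.obj (flag r), SSet.toTop.obj (flag r))) =
        ContinuousMap.const _ (pt (D.q 0) (D.h4 0 0)) := by
    apply hom_ext
    intro n x
    ext t
    change con D (chiG x.1 x.2 t) 1 = pt (D.q 0) (D.h4 0 0)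
    rw [con_chi, HC_one]
  exact DFunLike.congr_fun h e

end
end H464
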