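import Pool.Agent.H464.Real

open CategoryTheory Simplicial Opposite

namespace H464

noncomputable section

/-- the simplicial set of tuples of pairwise related elements -/
def flag {S : Type} (r : S → S → Prop) : SSet.{0} where
  obj n := {g : Fin (n.unop.len + 1) → S // ∀ i j, r (g i) (g j)}
  map θ := ↾fun g => ⟨g.1 ∘ θ.unop.toOrderHom, fun _ _ => g.2 _ _⟩

/-- the object of the simplex category attached to a finite type -/
def cardOp (F : Type) [Fintype F] : SimplexCategoryᵒᵖ := op (SimplexCategory.mk (Fintype.card F - 1))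

/-- the increasing enumeration -/
def isoF (F : Type) [Fintype F] [LinearOrder F] [Nonempty F] :
    Fin ((cardOp F).unop.len + 1) ≃o F :=
  Fintype.orderIsoFinOfCardEq F (by
    have : 0 < Fintype.card F := Fintype.card_pos
    simp only [cardOp, SimplexCategory.len_mk]; omega)

/-- a morphism of the opposite simplex category -/
def opHom {n m : SimplexCategoryᵒᵖ} (ψ : Fin (m.unop.len + 1) →o Fin (n.unop.len + 1)) : n ⟶ m :=
  Quiver.Hom.op (SimplexCategory.Hom.mk ψ)

lemma push_opHom {n m : SimplexCategoryᵒᵖ} (ψ : Fin (m.unop.len + 1) →o Fin (n.unop.len + 1))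
    (a : stdSimplex ℝ (Fin (m.unop.len + 1))) : push (opHom ψ) a = stdSimplex.map ψ a := rfl

variable {S : Type} {r : S → S → Prop}

/-- a simplex of the flag simplicial set -/
def simplexOf {n : SimplexCategoryᵒᵖ} (g : Fin (n.unop.len + 1) → S) (hg : ∀ i j, r (g i) (g j)) :
    (flag r).obj n := ⟨g, hg⟩

lemma map_simplexOf {n m : SimplexCategoryᵒᵖ} (θ : n ⟶ m) (g : Fin (n.unop.len + 1) → S)
    (hg : ∀ i j, r (g i) (g j)) : (flag r).map θ (simplexOf g hg) =
      simplexOf (g ∘ θ.unop.toOrderHom) (fun _ _ => hg _ _) := rfl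

/-- characteristic map of a simplex of the flag simplicial set -/
def chiG {n : SimplexCategoryᵒᵖ} (g : Fin (n.unop.len + 1) → S) (hg : ∀ i j, r (g i) (g j)) :
    C(stdSimplex ℝ (Fin (n.unop.len + 1)), SSet.toTop.obj (flag r)) :=
  chi (flag r) (simplexOf g hg)

lemma chiG_comp {n m : SimplexCategoryᵒᵖ} (g : Fin (n.unop.len + 1) → S)
    (hg : ∀ i j, r (g i) (g j)) (ψ : Fin (m.unop.len + 1) →o Fin (n.unop.len + 1))
    (a : stdSimplex ℝ (Fin (m.unop.len + 1))) :
    chiG (r := r) (g ∘ ψ) (fun _ _ => hg _ _) a = chiG g hg (stdSimplex.map ψ a) := by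
  have h := chi_map (flag r) (opHom ψ) (simplexOf g hg)
  rw [map_simplexOf] at h
  exact DFunLike.congr_fun h a

/-- extended characteristic map -/
def chiF (F : Type) [Fintype F] [LinearOrder F] [Nonempty F] (s : F → S)
    (hs : ∀ i j, r (s i) (s j)) : C(stdSimplex ℝ F, SSet.toTop.obj (flag r)) :=
  (chiG (n := cardOp F) (s ∘ isoF F) (fun _ _ => hs _ _)).comp
    ⟨stdSimplex.map (isoF F).symm, stdSimplex.continuous_map _⟩

lemma chiF_apply (F : Type) [Fintype F] [LinearOrder F] [Nonempty F] (s : F → S)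
    (hs : ∀ i j, r (s i) (s j)) (a : stdSimplex ℝ F) :
    chiF F s hs a = (chiG (n := cardOp F) (s ∘ isoF F) (fun _ _ => hs _ _))
      (stdSimplex.map (isoF F).symm a) := rfl

lemma chiG_congr {n : SimplexCategoryᵒᵖ} {g g' : Fin (n.unop.len + 1) → S} (h : g = g')
    (hg : ∀ i j, r (g i) (g j)) (hg' : ∀ i j, r (g' i) (g' j)) : chiG g hg = chiG g' hg' := by
  subst h; rfl

lemma chiF_nat (F F' : Type) [Fintype F] [LinearOrder F] [Nonempty F] [Fintype F'] [LinearOrder F']
    [Nonempty F'] (s : F → S) (hs : ∀ i j, r (s i) (s j)) (s' : F' → S)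
    (hs' : ∀ i j, r (s' i) (s' j)) (θ : F →o F') (h : ∀ i, s i = s' (θ i)) (a : stdSimplex ℝ F) :
    chiF F s hs a = chiF F' s' hs' (stdSimplex.map θ a) := by
  let ψ : Fin ((cardOp F).unop.len + 1) →o Fin ((cardOp F').unop.len + 1) :=
    ((isoF F').symm : F' →o _).comp (θ.comp ((isoF F : _ ≃o F) : _ →o F))
  have h1 : s ∘ isoF F = (s' ∘ isoF F') ∘ ψ := by
    funext i
    change s (isoF F i) = s' (isoF F' ((isoF F').symm (θ (isoF F i))))
    rw [OrderIso.apply_symm_apply, h]
  rw [chiF_apply, chiF_apply, chiG_congr h1 _ (fun _ _ => hs' _ _)]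
  refine (chiG_comp (r := r) (n := cardOp F') (m := cardOp F) (s' ∘ isoF F')
    (fun _ _ => hs' _ _) ψ _).trans ?_
  rw [stdSimplex.map_comp_apply, stdSimplex.map_comp_apply]
  congr 2
  funext i
  change (isoF F').symm (θ (isoF F ((isoF F).symm i))) = (isoF F').symm (θ i)
  rw [OrderIso.apply_symm_apply]

lemma chiG_eq_chiF {n : SimplexCategoryᵒᵖ} (g : Fin (n.unop.len + 1) → S)
    (hg : ∀ i j, r (g i) (g j)) (a : stdSimplex ℝ (Fin (n.unop.len + 1))) :
    chiG g hg a = chiF (Fin (n.unop.len + 1)) g hg a := by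
  let ψ : Fin ((cardOp (Fin (n.unop.len + 1))).unop.len + 1) →o Fin (n.unop.len + 1) :=
    (isoF (Fin (n.unop.len + 1)) : _ →o _)
  rw [chiF_apply]
  have h := chiG_comp (r := r) (m := cardOp (Fin (n.unop.len + 1))) g hg ψ
    (stdSimplex.map (isoF (Fin (n.unop.len + 1))).symm a)
  rw [stdSimplex.map_comp_apply] at h
  have h2 : (ψ ∘ (isoF (Fin (n.unop.len + 1))).symm : Fin (n.unop.len + 1) → _) = id := by
    funext i
    exact OrderIso.apply_symm_apply _ _
  rw [h2, stdSimplex.map_id_apply] at h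
  exact h.symm

end
end H464
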