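import Pool.Agent.H464.Ends

open CategoryTheory Simplicial Opposite

namespace H464

noncomputable section

/-- the integral Heisenberg group of infinite rank (underlying type) -/
@[ext] structure Heis where
  a : ℕ →₀ ℤ
  b : ℕ →₀ ℤ
  z : ℤ

/-- the pairing of finitely supported sequences -/
def dot (a b : ℕ →₀ ℤ) : ℤ := a.sum fun k x => x * b k

lemma dot_add_left (a a' b : ℕ →₀ ℤ) : dot (a + a') b = dot a b + dot a' b := by
  unfold dot
  apply Finsupp.sum_add_index'
  · intro k; simp
  · intro k x y; ring

lemma dot_add_right (a b b' : ℕ →₀ ℤ) : dot a (b + b') = dot a b + dot a b' := by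
  unfold dot
  simp only [Finsupp.add_apply, mul_add]
  exact Finsupp.sum_add

lemma dot_zero_left (b : ℕ →₀ ℤ) : dot 0 b = 0 := by simp [dot]

lemma dot_zero_right (b : ℕ →₀ ℤ) : dot b 0 = 0 := by simp [dot]

lemma dot_neg_left (a b : ℕ →₀ ℤ) : dot (-a) b = - dot a b := by
  have h := dot_add_left a (-a) b
  rw [add_neg_cancel, dot_zero_left] at h
  linarith

lemma dot_neg_right (a b : ℕ →₀ ℤ) : dot a (-b) = - dot a b := by
  have h := dot_add_right a b (-b)
  rw [add_neg_cancel, dot_zero_right] at h
  linarith

lemma dot_single_left (k : ℕ) (x : ℤ) (b : ℕ →₀ ℤ) : dot (Finsupp.single k x) b = x * b k := by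
  unfold dot
  rw [Finsupp.sum_single_index]
  simp

lemma dot_single_right (k : ℕ) (x : ℤ) (a : ℕ →₀ ℤ) : dot a (Finsupp.single k x) = a k * x := by
  classical
  unfold dot
  rw [Finsupp.sum_eq_single k]
  · simp
  · intro b _ hb; simp [Finsupp.single_apply, Ne.symm hb]
  · intro h; simp

lemma dot_sum_right {ι : Type} (a : ℕ →₀ ℤ) (s : Finset ι) (f : ι → ℕ →₀ ℤ) :
    dot a (∑ i ∈ s, f i) = ∑ i ∈ s, dot a (f i) := by
  classical
  induction s using Finset.induction_on with
  | empty => simp [dot_zero_right]
  | insert i s hi ih => rw [Finset.sum_insert hi, Finset.sum_insert hi, dot_add_right, ih]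

namespace Heis

instance : Mul Heis := ⟨fun x y => ⟨x.a + y.a, x.b + y.b, x.z + y.z + dot x.a y.b⟩⟩
instance : One Heis := ⟨⟨0, 0, 0⟩⟩
instance : Inv Heis := ⟨fun x => ⟨-x.a, -x.b, -x.z + dot x.a x.b⟩⟩

@[simp] lemma mul_a (x y : Heis) : (x * y).a = x.a + y.a := rfl
@[simp] lemma mul_b (x y : Heis) : (x * y).b = x.b + y.b := rfl
@[simp] lemma mul_z (x y : Heis) : (x * y).z = x.z + y.z + dot x.a y.b := rfl
@[simp] lemma one_a : (1 : Heis).a = 0 := rfl
@[simp] lemma one_b : (1 : Heis).b = 0 := rfl
@[simp] lemma one_z : (1 : Heis).z = 0 := rfl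
@[simp] lemma inv_a (x : Heis) : (x⁻¹).a = -x.a := rfl
@[simp] lemma inv_b (x : Heis) : (x⁻¹).b = -x.b := rfl
@[simp] lemma inv_z (x : Heis) : (x⁻¹).z = -x.z + dot x.a x.b := rfl

instance : Group Heis := Group.ofLeftAxioms
  (by
    intro x y w
    ext1
    · simp [add_assoc]
    · simp [add_assoc]
    · simp only [mul_z, mul_a, mul_b, dot_add_left, dot_add_right]; ring)
  (by
    intro x
    ext1 <;> simp [dot_zero_left])
  (by
    intro x
    ext1
    · simp
    · simp
    · simp only [mul_z, inv_z, inv_a, dot_neg_left, one_z]; ring)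

/-- the commutator form -/
def om (x y : Heis) : ℤ := dot x.a y.b - dot y.a x.b

lemma om_self (x : Heis) : om x x = 0 := sub_self _

lemma om_symm (x y : Heis) : om y x = - om x y := by unfold om; ring

lemma comm_iff (x y : Heis) : x * y = y * x ↔ om x y = 0 := by
  unfold om
  constructor
  · intro h
    have := congrArg Heis.z h
    simp only [mul_z] at this
    linarith
  · intro h
    ext1
    · simp [add_comm]
    · simp [add_comm]
    · simp only [mul_z]; linarith

lemma om_inv_mul (x g h : Heis) : om (x⁻¹ * g) (x⁻¹ * h) = om g h - om x h + om x g := by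
  unfold om
  simp only [mul_a, mul_b, inv_a, inv_b, dot_add_left, dot_add_right, dot_neg_left, dot_neg_right]
  ring

lemma mem_center_iff (x : Heis) : x ∈ Subgroup.center Heis ↔ x.a = 0 ∧ x.b = 0 := by
  rw [Subgroup.mem_center_iff]
  constructor
  · intro h
    constructor
    · ext k
      have := (comm_iff _ _).1 (h ⟨0, Finsupp.single k 1, 0⟩)
      unfold om at this
      simp only [dot_zero_left, dot_single_right] at this
      simpa using this
    · ext k
      have := (comm_iff _ _).1 (h ⟨Finsupp.single k 1, 0, 0⟩)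
      unfold om at this
      simp only [dot_zero_right, dot_single_left] at this
      simpa using this
  · rintro ⟨h1, h2⟩ g
    rw [comm_iff]
    unfold om
    rw [h1, h2, dot_zero_left, dot_zero_right, sub_zero]

lemma center_index : (Subgroup.center Heis).index = 0 := by
  rw [Subgroup.index_eq_zero_iff_infinite]
  let f : ℕ → Heis ⧸ Subgroup.center Heis := fun k => (⟨Finsupp.single k 1, 0, 0⟩ : Heis)
  apply Infinite.of_injective f
  intro k l h
  have h1 := QuotientGroup.eq.1 h
  rw [mem_center_iff] at h1
  have h2 := h1.1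
  simp only [mul_a, inv_a] at h2
  have h3 := DFunLike.congr_fun h2 l
  simp only [Finsupp.add_apply, Finsupp.neg_apply, Finsupp.single_apply, Finsupp.zero_apply,
    if_true] at h3
  by_contra hne
  rw [if_neg hne] at h3
  norm_num at h3

instance : Countable Heis := by
  have : Function.Injective (fun x : Heis => (x.a, x.b, x.z)) := by
    intro x y h
    simp only [Prod.mk.injEq] at h
    exact Heis.ext h.1 h.2.1 h.2.2
  exact this.countable

end Heis

end
end H464
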