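import Pool.Agent.H464.Heis

open CategoryTheory Opposite

namespace H464

noncomputable section

open Heis

/-- vertices of the cover -/
abbrev V : Type := Heis × ℤ

/-- adjacency in the cover -/
def adj (x y : V) : Prop := y.2 - x.2 = om x.1 y.1

lemma adj_symm {x y : V} (h : adj x y) : adj y x := by
  unfold adj at *
  rw [om_symm]; linarith

lemma adj_refl (x : V) : adj x x := by
  unfold adj
  rw [om_self]; ring

/-- index of a vertex -/
def vidx : V → ℕ := Classical.choose (exists_injective_nat V)

lemma vidx_inj : Function.Injective vidx := Classical.choose_spec (exists_injective_nat V)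

lemma Y_fin (m : ℕ) : {x : V | vidx x ≤ m}.Finite :=
  Set.Finite.preimage vidx_inj.injOn (Set.finite_Iic m)

/-- the vertices of index at most `m` -/
def YY (m : ℕ) : Finset V := (Y_fin m).toFinset

lemma mem_YY {m : ℕ} {x : V} : x ∈ YY m ↔ vidx x ≤ m := by simp [YY]

/-- support bound of a vertex -/
def bnd (x : V) : ℕ := (x.1.a.support ∪ x.1.b.support).sup id + 1

lemma bnd_a {x : V} {k : ℕ} (h : bnd x ≤ k) : x.1.a k = 0 := by
  by_contra hne
  have h1 : k ∈ x.1.a.support ∪ x.1.b.support := by simp [hne]
  have h2 := Finset.le_sup (f := id) h1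
  unfold bnd at h
  simp only [id] at h2
  omega

lemma bnd_b {x : V} {k : ℕ} (h : bnd x ≤ k) : x.1.b k = 0 := by
  by_contra hne
  have h1 : k ∈ x.1.a.support ∪ x.1.b.support := by simp [hne]
  have h2 := Finset.le_sup (f := id) h1
  unfold bnd at h
  simp only [id] at h2
  omega

/-- a coordinate bound for the vertices of index at most `m` -/
def BB (m : ℕ) : ℕ := (YY m).sup bnd

/-- the fresh coordinate -/
def kk (m : ℕ) (x : V) : ℕ := Nat.pair (Nat.pair (BB m) m) (vidx x)

lemma kk_ge {m : ℕ} {x y : V} (h : vidx y ≤ m) : bnd y ≤ kk m x := by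
  have h1 : bnd y ≤ BB m := Finset.le_sup (f := bnd) (mem_YY.2 h)
  have h2 : BB m ≤ Nat.pair (BB m) m := Nat.left_le_pair _ _
  have h3 : Nat.pair (BB m) m ≤ kk m x := Nat.left_le_pair _ _
  omega

lemma kk_inj {m m' : ℕ} {x y : V} (h : kk m x = kk m' y) : m = m' ∧ x = y := by
  unfold kk at h
  rw [Nat.pair_eq_pair, Nat.pair_eq_pair] at h
  exact ⟨h.1.2, vidx_inj h.2⟩

/-- pushing a vertex in a fresh direction -/
def phi (m : ℕ) (x : V) : V := (⟨x.1.a + Finsupp.single (kk m x) 1, x.1.b, x.1.z⟩, x.2)

/-- the vectors defining the apex points -/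
def AA : ℕ → (ℕ →₀ ℤ)
  | 0 => 0
  | m + 1 => AA m + ∑ x ∈ YY m, Finsupp.single (kk m x) (-x.2 - dot x.1.a (AA m))

lemma AA_succ (m : ℕ) : AA (m + 1) =
    AA m + ∑ x ∈ YY m, Finsupp.single (kk m x) (-x.2 - dot x.1.a (AA m)) := rfl

lemma AA_low (m : ℕ) (x : V) : ∀ M ≤ m, AA M (kk m x) = 0 := by
  intro M
  induction M with
  | zero => intro _; rfl
  | succ M ih =>
    intro hM
    rw [AA_succ, Finsupp.add_apply, ih (by omega), zero_add, Finsupp.finsetSum_apply]
    apply Finset.sum_eq_zero
    intro y _
    rw [Finsupp.single_apply, if_neg]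
    intro h
    have := (kk_inj h).1
    omega

lemma AA_dot {m : ℕ} {x : V} (hx : vidx x ≤ m) : ∀ M, m ≤ M → dot x.1.a (AA M) = dot x.1.a (AA m) := by
  intro M hM
  induction M, hM using Nat.le_induction with
  | base => rfl
  | succ M hM ih =>
    rw [AA_succ, dot_add_right, ih, dot_sum_right, Finset.sum_eq_zero, add_zero]
    intro y _
    rw [dot_single_right, bnd_a (kk_ge (hx.trans hM)), zero_mul]

lemma AA_val {m : ℕ} {x : V} (hx : vidx x ≤ m) : ∀ M, m + 1 ≤ M →
    AA M (kk m x) = -x.2 - dot x.1.a (AA m) := by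
  intro M hM
  induction M, hM using Nat.le_induction with
  | base =>
    rw [AA_succ, Finsupp.add_apply, AA_low m x m le_rfl, zero_add, Finsupp.finsetSum_apply,
      Finset.sum_eq_single x]
    · rw [Finsupp.single_apply, if_pos rfl]
    · intro y _ hy
      rw [Finsupp.single_apply, if_neg]
      intro h
      exact hy (kk_inj h).2
    · intro h; exact absurd (mem_YY.2 hx) h
  | succ M hM ih =>
    rw [AA_succ, Finsupp.add_apply, ih, Finsupp.finsetSum_apply, Finset.sum_eq_zero, add_zero]
    intro y _
    rw [Finsupp.single_apply, if_neg]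
    intro h
    have := (kk_inj h).1
    omega

/-- apex points -/
def apex (k : ℕ) : V := (⟨0, AA (k + 2), 0⟩, 0)

/-- the combinatorial data for the cover of the Heisenberg complex -/
def heisData : Data adj where
  idx := vidx
  φ := phi
  q := apex
  symm _ _ h := adj_symm h
  h1 := by
    intro m x y hx hy h
    unfold adj phi at *
    simp only [om, dot_add_left, dot_single_left] at *
    rw [h, bnd_b (kk_ge hx)]
    ring
  h2 := by
    intro m m' x y hx hy hx' hy' h
    unfold adj phi at *
    simp only [om, dot_add_left, dot_single_left] at *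
    rw [h, bnd_b (kk_ge hx'), bnd_b (kk_ge hy)]
    ring
  h3 := by
    intro m k x hk hx
    unfold adj phi apex
    simp only [om, dot_add_left, dot_single_left, dot_zero_left]
    rw [AA_val hx (k + 2) (by omega), AA_dot hx (k + 2) (by omega)]
    ring
  h4 := by
    intro k l
    unfold adj apex
    simp [om, dot_zero_left]

end
end H464
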