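import Pool.Agent.H464.Contract

open CategoryTheory Simplicial Opposite

namespace H464

noncomputable section

variable {S : Type} {r : S → S → Prop}

lemma map_apply {M N : ℕ} (θ : Fin (M + 1) → Fin (N + 1)) (t : stdSimplex ℝ (Fin (M + 1)))
    (i : Fin (N + 1)) : stdSimplex.map θ t i = ∑ j, if θ j = i then t j else 0 := by
  rw [stdSimplex.map_coe, FunOnFinite.linearMap_apply_apply, Finset.sum_filter]

lemma sum_push {M N : ℕ} (θ : Fin (M + 1) → Fin (N + 1)) (t : stdSimplex ℝ (Fin (M + 1)))
    (F : Fin (N + 1) → ℝ) : ∑ i, stdSimplex.map θ t i * F i = ∑ j, t j * F (θ j) := by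
  simp only [map_apply, Finset.sum_mul]
  rw [Finset.sum_comm]
  refine Finset.sum_congr rfl fun j _ => ?_
  simp [ite_mul]

lemma UU_push (D : Data r) {M N : ℕ} (θ : Fin (M + 1) → Fin (N + 1))
    (t : stdSimplex ℝ (Fin (M + 1))) (g : Fin (N + 1) → S) (x : S) :
    UU D (g ∘ θ) t x = UU D g (stdSimplex.map θ t) x := by
  have h := sum_push θ t (fun i => if D.idx x ≤ D.idx (g i) then 1 else 0)
  simp only [mul_ite, mul_one, mul_zero] at h
  exact h.symm

lemma kap_push (D : Data r) {M N : ℕ} (θ : Fin (M + 1) → Fin (N + 1))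
    (t : stdSimplex ℝ (Fin (M + 1))) (g : Fin (N + 1) → S) (x : S) :
    kap D (g ∘ θ) t x = kap D g (stdSimplex.map θ t) x := by
  unfold kap; rw [UU_push]

lemma nu_push (D : Data r) {M N : ℕ} (θ : Fin (M + 1) → Fin (N + 1))
    (t : stdSimplex ℝ (Fin (M + 1))) (g : Fin (N + 1) → S) :
    nu D (g ∘ θ) t = nu D g (stdSimplex.map θ t) := by
  unfold nu
  rw [sum_push]; rfl

lemma coef_cont (k : ℕ) {Z : Type} [TopologicalSpace Z] (u κ ν : Z → ℝ) (hu : Continuous u)
    (hκ : Continuous κ) (hν : Continuous ν) : Continuous fun z => coef k (u z) (κ z) (ν z) := by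
  unfold coef
  have h0 := (hat_cont 0).comp hu
  have h1 := (hat_cont 1).comp hu
  have h2 := (hat_cont 2).comp hu
  have h3 := (hat_cont 3).comp hu
  have h4 := (hat_cont 4).comp hu
  have h5 := (hat_cont (k / 3 : ℕ)).comp hν
  split_ifs
  · exact h0.add (h1.mul hκ)
  · exact continuous_const
  · exact (h2.mul hκ).mul h5
  · exact ((h3.mul hκ).mul h5).add h4
  · exact ((h3.mul hκ).mul h5).add continuous_const

lemma coord_cont {N : ℕ} (i : Fin (N + 1)) :
    Continuous fun t : stdSimplex ℝ (Fin (N + 1)) => t i :=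
  (continuous_apply i).comp continuous_subtype_val

lemma kap_cont (D : Data r) {N : ℕ} (g : Fin (N + 1) → S) (x : S) :
    Continuous fun t : stdSimplex ℝ (Fin (N + 1)) => kap D g t x := by
  unfold kap UU
  apply continuous_const.max
  apply Continuous.sub _ continuous_const
  apply continuous_finsetSum
  intro j _
  split_ifs
  · exact coord_cont j
  · exact continuous_const

lemma nu_cont (D : Data r) {N : ℕ} (g : Fin (N + 1) → S) :
    Continuous fun t : stdSimplex ℝ (Fin (N + 1)) => nu D g t := by
  unfold nu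
  apply continuous_const.mul
  apply continuous_finsetSum
  intro j _
  exact (coord_cont j).mul continuous_const

/-- the homotopy on a single simplex -/
def HC (D : Data r) {N : ℕ} (g : Fin (N + 1) → S) (hg : ∀ i j, r (g i) (g j)) :
    C(stdSimplex ℝ (Fin (N + 1)) × unitInterval, SSet.toTop.obj (flag r)) :=
  ⟨fun p => R (sJ D g) (wJ D g p.1 (4 * p.2)) (good_wJ D g hg p.1 _
      (by have := p.2.2.1; linarith) (by have := p.2.2.2; linarith)),
    R_continuous (sJ D g) _ _ (PJ N (bd D g)) (fun z j hj => wJ_mem D g z.1 _ j hj) (by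
      intro j
      unfold wJ
      apply Continuous.mul
      · exact (coord_cont _).comp continuous_fst
      · apply coef_cont
        · exact continuous_const.mul (continuous_subtype_val.comp continuous_snd)
        · exact (kap_cont D g _).comp continuous_fst
        · exact (nu_cont D g).comp continuous_fst)⟩

lemma HC_apply (D : Data r) {N : ℕ} (g : Fin (N + 1) → S) (hg : ∀ i j, r (g i) (g j))
    (t : stdSimplex ℝ (Fin (N + 1))) (τ : unitInterval) :
    HC D g hg (t, τ) = R (sJ D g) (wJ D g t (4 * τ)) (good_wJ D g hg t _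
      (by have := τ.2.1; linarith) (by have := τ.2.2; linarith)) := rfl

lemma HC_push (D : Data r) {M N : ℕ} (θ : Fin (M + 1) →o Fin (N + 1)) (g : Fin (N + 1) → S)
    (hg : ∀ i j, r (g i) (g j)) (t : stdSimplex ℝ (Fin (M + 1))) (τ : unitInterval) :
    HC D (g ∘ θ) (fun _ _ => hg _ _) (t, τ) = HC D g hg (stdSimplex.map θ t, τ) := by
  classical
  rw [HC_apply, HC_apply]
  have hw : ∀ j, wJ D (g ∘ θ) t (4 * (τ : ℝ)) j = t (ofLex j).2 * coef (ofLex j).1 (4 * (τ : ℝ))
      (kap D g (stdSimplex.map θ t) (g (θ (ofLex j).2))) (nu D g (stdSimplex.map θ t)) := by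
    intro j
    unfold wJ
    rw [kap_push, nu_push]
    rfl
  apply R_nat (θ := fun j : JJ M => (toLex ((ofLex j).1, θ (ofLex j).2) : JJ N))
    (P := PJ M (bd D g))
  · intro i j _ _ hij
    rw [Prod.Lex.le_iff] at hij ⊢
    rcases hij with h | h
    · left; exact h
    · right; exact ⟨h.1, θ.monotone h.2⟩
  · intro j _
    rfl
  · intro j hj
    rw [mem_PJ]
    rw [hw] at hj
    exact coef_bd D g (stdSimplex.map θ t) _ _ _ (right_ne_zero_of_mul hj)
  · intro j'
    simp only [hw]
    rw [Finset.sum_filter]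
    unfold PJ
    rw [Finset.sum_map, Finset.sum_product]
    simp only [Equiv.coe_toEmbedding, ofLex_toLex]
    unfold wJ
    have hcond : ∀ (k : ℕ) (j : Fin (M + 1)), ((toLex (k, θ j) : JJ N) = j') ↔
        (k = (ofLex j').1 ∧ θ j = (ofLex j').2) := by
      intro k j
      constructor
      · rintro rfl; exact ⟨rfl, rfl⟩
      · rintro ⟨h1, h2⟩
        have : (k, θ j) = ofLex j' := Prod.ext h1 h2
        rw [this]; rfl
    simp only [hcond]
    by_cases hk : (ofLex j').1 < bd D g
    · rw [Finset.sum_eq_single (ofLex j').1]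
      · simp only [true_and]
        rw [map_apply, Finset.sum_mul]
        refine Finset.sum_congr rfl fun j _ => ?_
        split_ifs with h
        · rw [h]
        · rw [zero_mul]
      · intro k _ hk'
        apply Finset.sum_eq_zero
        intro j _
        rw [if_neg]
        rintro ⟨h, _⟩; exact hk' h
      · intro h; exact absurd (Finset.mem_range.2 hk) h
    · have h0 : coef (ofLex j').1 (4 * (τ : ℝ)) (kap D g (stdSimplex.map θ t) (g (ofLex j').2))
          (nu D g (stdSimplex.map θ t)) = 0 := by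
        by_contra hne
        exact hk (coef_bd D g (stdSimplex.map θ t) _ _ _ hne)
      rw [h0, mul_zero]
      symm
      apply Finset.sum_eq_zero
      intro k hk'
      apply Finset.sum_eq_zero
      intro j _
      rw [if_neg]
      rintro ⟨h, _⟩
      rw [h] at hk'
      exact hk (Finset.mem_range.1 hk')

/-- the contraction -/
def con (D : Data r) : C(SSet.toTop.obj (flag r), C(unitInterval, SSet.toTop.obj (flag r))) :=
  glue (flag r) _ (fun _ x => (HC D x.1 x.2).curry) (by
    intro n m θ x
    ext t τ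
    exact HC_push D θ.unop.toOrderHom x.1 x.2 t τ)

lemma con_chi (D : Data r) {n : SimplexCategoryᵒᵖ} (g : Fin (n.unop.len + 1) → S)
    (hg : ∀ i j, r (g i) (g j)) (t : stdSimplex ℝ (Fin (n.unop.len + 1))) (τ : unitInterval) :
    con D (chiG g hg t) τ = HC D g hg (t, τ) := by
  have h := glue_chi (flag r) _ (fun _ x => (HC D x.1 x.2).curry) (by
    intro n m θ x
    ext t τ
    exact HC_push D θ.unop.toOrderHom x.1 x.2 t τ) n (simplexOf g hg)
  have h2 := DFunLike.congr_fun h t
  have h3 := DFunLike.congr_fun h2 τ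
  exact h3

end
end H464
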