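import Pool.Agent.H464.Weights

open CategoryTheory Simplicial Opposite

namespace H464

noncomputable section

variable {S : Type} {r : S → S → Prop}

lemma good_simplex {N : ℕ} (g : Fin (N + 1) → S) (hg : ∀ i j, r (g i) (g j))
    (t : stdSimplex ℝ (Fin (N + 1))) : Good r g t := by
  refine ⟨fun j => t.2.1 j, Set.toFinite _, ?_, fun i j _ _ => hg i j⟩
  by_contra hne
  push Not at hne
  have h1 : ∑ i, t i = 1 := stdSimplex.sum_eq_one t
  simp [hne] at h1

lemma chiG_eq_R {n : SimplexCategoryᵒᵖ} (g : Fin (n.unop.len + 1) → S)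
    (hg : ∀ i j, r (g i) (g j)) (t : stdSimplex ℝ (Fin (n.unop.len + 1))) :
    chiG g hg t = R g t (good_simplex g hg t) := by
  have h1 : ∑ i, t i = 1 := stdSimplex.sum_eq_one t
  rw [chiG_eq_chiF, R_eq g t (good_simplex g hg t) Finset.univ Finset.univ_nonempty
    (fun i _ j _ => hg i j) (fun j _ => Finset.mem_univ j) (by rw [h1]; exact one_pos)]
  unfold RP
  haveI : Nonempty (Finset.univ : Finset (Fin (n.unop.len + 1))) :=
    Finset.univ_nonempty.to_subtype
  refine Eq.trans ?_ (chiF_nat (r := r) (Finset.univ : Finset (Fin (n.unop.len + 1)))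
    (Fin (n.unop.len + 1)) _ _ g hg
    (OrderHom.Subtype.val _) (fun i => rfl) _).symm
  congr 1
  ext i
  rw [stdSimplex.map_coe, FunOnFinite.linearMap_apply_apply, Finset.sum_filter]
  have h2 : ∀ x : (Finset.univ : Finset (Fin (n.unop.len + 1))),
      (nrm Finset.univ (t : Fin (n.unop.len + 1) → ℝ) (fun j => t.2.1 j)
        (by rw [h1]; exact one_pos)) x = t x := by
    intro x
    rw [nrm_apply, h1, div_one]
  rw [Finset.sum_eq_single (⟨i, Finset.mem_univ i⟩ : (Finset.univ : Finset (Fin (n.unop.len + 1))))]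
  · simp [h2]
  · intro b _ hb
    rw [if_neg]
    intro hb'
    exact hb (Subtype.ext hb')
  · intro hb; exact absurd (Finset.mem_univ _) hb

/-- the vertex of the realisation given by an element -/
def pt (x : S) (hx : r x x) : SSet.toTop.obj (flag r) :=
  chiG (n := op (SimplexCategory.mk 0)) (fun _ => x) (fun _ _ => hx)
    (Classical.arbitrary (stdSimplex ℝ (Fin 1)))

lemma R_eq_pt {J : Type} [LinearOrder J] (s : J → S) (W : J → ℝ) (h : Good r s W) (x : S)
    (hx : r x x) (hs : ∀ j, W j ≠ 0 → s j = x) (P : Finset J) (hP : ∀ j, W j ≠ 0 → j ∈ P)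
    (h1 : ∑ j ∈ P, W j = 1) :
    R s W h = pt x hx := by
  unfold pt
  rw [chiG_eq_R]
  apply R_nat (θ := fun _ => (0 : Fin 1)) (P := P)
  · intro i j _ _ _; exact le_rfl
  · intro j hj; exact hs j hj
  · exact hP
  · intro j'
    have hj' : j' = (0 : Fin 1) := Subsingleton.elim _ _
    subst hj'
    simp only [Finset.filter_true, h1]
    simp

end
end H464
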