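import Mathlib

open CategoryTheory Simplicial Opposite

namespace H464

noncomputable section

/-- the characteristic map of a simplex of `X` into the realisation -/
def chi (X : SSet.{0}) {n : SimplexCategoryᵒᵖ} (x : X.obj n) :
    C(stdSimplex ℝ (Fin (n.unop.len + 1)), SSet.toTop.obj X) :=
  TopCat.toSSetObjEquiv _ _ ((sSetTopAdj.unit.app X).app n x)

/-- the push-forward of barycentric coordinates -/
def push {n m : SimplexCategoryᵒᵖ} (θ : n ⟶ m) :
    C(stdSimplex ℝ (Fin (m.unop.len + 1)), stdSimplex ℝ (Fin (n.unop.len + 1))) :=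
  ⟨stdSimplex.map θ.unop.toOrderHom, stdSimplex.continuous_map _⟩

lemma toSSetObjEquiv_map (Y : TopCat.{0}) {n m : SimplexCategoryᵒᵖ} (θ : n ⟶ m)
    (s : (TopCat.toSSet.obj Y).obj n) :
    TopCat.toSSetObjEquiv Y m ((TopCat.toSSet.obj Y).map θ s) =
      (TopCat.toSSetObjEquiv Y n s).comp (push θ) := by
  rfl

lemma toSSetObjEquiv_comp (X Y : TopCat.{0}) (f : X ⟶ Y) {n : SimplexCategoryᵒᵖ}
    (s : (TopCat.toSSet.obj X).obj n) :
    TopCat.toSSetObjEquiv Y n ((TopCat.toSSet.map f).app n s) =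
      f.hom.comp (TopCat.toSSetObjEquiv X n s) := by
  rfl

lemma chi_map (X : SSet.{0}) {n m : SimplexCategoryᵒᵖ} (θ : n ⟶ m) (x : X.obj n) :
    chi X (X.map θ x) = (chi X x).comp (push θ) := by
  have h := NatTrans.naturality_apply (sSetTopAdj.unit.app X) θ x
  have h2 := congrArg (TopCat.toSSetObjEquiv (SSet.toTop.obj X) m) h
  exact h2

/-- maps out of the realisation, simplicial form -/
def glueHom (X : SSet.{0}) (Y : Type) [TopologicalSpace Y]
    (F : ∀ (n : SimplexCategoryᵒᵖ) (_ : X.obj n), C(stdSimplex ℝ (Fin (n.unop.len + 1)), Y))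
    (hF : ∀ (n m : SimplexCategoryᵒᵖ) (θ : n ⟶ m) (x : X.obj n),
      F m (X.map θ x) = (F n x).comp (push θ)) :
    X ⟶ TopCat.toSSet.obj (TopCat.of Y) :=
    { app := fun n => ↾fun x => (TopCat.toSSetObjEquiv (TopCat.of Y) n).symm (F n x)
      naturality := by
        intro n m θ
        ext x
        apply (TopCat.toSSetObjEquiv (TopCat.of Y) m).injective
        have h1 := toSSetObjEquiv_map (TopCat.of Y) θ ((TopCat.toSSetObjEquiv (TopCat.of Y) n).symm (F n x))
        simp only [Equiv.apply_symm_apply] at h1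
        have h2 := (hF n m θ x)

        exact (Equiv.apply_symm_apply _ _).trans (h2.trans h1.symm) }

/-- maps out of the realisation -/
def glue (X : SSet.{0}) (Y : Type) [TopologicalSpace Y]
    (F : ∀ (n : SimplexCategoryᵒᵖ) (_ : X.obj n), C(stdSimplex ℝ (Fin (n.unop.len + 1)), Y))
    (hF : ∀ (n m : SimplexCategoryᵒᵖ) (θ : n ⟶ m) (x : X.obj n),
      F m (X.map θ x) = (F n x).comp (push θ)) :
    C(SSet.toTop.obj X, Y) :=
  ((sSetTopAdj.homEquiv X (TopCat.of Y)).symm (glueHom X Y F hF)).hom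

lemma glue_chi (X : SSet.{0}) (Y : Type) [TopologicalSpace Y]
    (F : ∀ (n : SimplexCategoryᵒᵖ) (_ : X.obj n), C(stdSimplex ℝ (Fin (n.unop.len + 1)), Y))
    (hF : ∀ (n m : SimplexCategoryᵒᵖ) (θ : n ⟶ m) (x : X.obj n),
      F m (X.map θ x) = (F n x).comp (push θ))
    (n : SimplexCategoryᵒᵖ) (x : X.obj n) :
    (glue X Y F hF).comp (chi X x) = F n x := by
  have h := (sSetTopAdj.homEquiv X (TopCat.of Y)).apply_symm_apply (glueHom X Y F hF)
  rw [Adjunction.homEquiv_unit] at h
  have h2 := congrArg (fun φ => TopCat.toSSetObjEquiv (TopCat.of Y) n (φ.app n x)) h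
  have h3 : (TopCat.toSSetObjEquiv (TopCat.of Y) n) ((glueHom X Y F hF).app n x) = F n x := 
    Equiv.apply_symm_apply _ _
  exact Eq.trans (by rfl) (h2.trans h3)

lemma hom_ext (X : SSet.{0}) (Y : Type) [TopologicalSpace Y] (f g : C(SSet.toTop.obj X, Y))
    (h : ∀ (n : SimplexCategoryᵒᵖ) (x : X.obj n), f.comp (chi X x) = g.comp (chi X x)) :
    f = g := by
  have h1 : TopCat.ofHom f = (TopCat.ofHom g : SSet.toTop.obj X ⟶ TopCat.of Y) := by
    apply (sSetTopAdj.homEquiv X (TopCat.of Y)).injective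
    ext n x
    apply (TopCat.toSSetObjEquiv (TopCat.of Y) n).injective
    rw [Adjunction.homEquiv_unit, Adjunction.homEquiv_unit]
    exact h n x
  exact congrArg TopCat.Hom.hom h1

end
end H464
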