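import Pool.Agent.H464.Flag

open CategoryTheory Simplicial Opposite

namespace H464

noncomputable section

variable {S : Type} {r : S → S → Prop}

/-- admissible weights -/
structure Good {J : Type} (r : S → S → Prop) (s : J → S) (W : J → ℝ) : Prop where
  nonneg : ∀ j, 0 ≤ W j
  fin : (Function.support W).Finite
  ne : ∃ j, W j ≠ 0
  clique : ∀ i j, W i ≠ 0 → W j ≠ 0 → r (s i) (s j)

/-- normalised weights -/
def nrm {J : Type} (P : Finset J) (W : J → ℝ) (h0 : ∀ j, 0 ≤ W j) (h1 : 0 < ∑ j ∈ P, W j) :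
    stdSimplex ℝ P :=
  ⟨fun j => W j / ∑ j ∈ P, W j, fun j => div_nonneg (h0 _) h1.le, by
    rw [← Finset.sum_div, Finset.sum_coe_sort P W, div_self h1.ne']⟩

lemma nrm_apply {J : Type} (P : Finset J) (W : J → ℝ) (h0 : ∀ j, 0 ≤ W j)
    (h1 : 0 < ∑ j ∈ P, W j) (j : P) : nrm P W h0 h1 j = W j / ∑ j ∈ P, W j := rfl

/-- characteristic map of a finite set of positions -/
def RP {J : Type} [LinearOrder J] (s : J → S) (P : Finset J) (hP : P.Nonempty)
    (hc : ∀ i ∈ P, ∀ j ∈ P, r (s i) (s j)) : C(stdSimplex ℝ P, SSet.toTop.obj (flag r)) :=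
  haveI := hP.to_subtype
  chiF P (fun j => s j) (fun i j => hc i i.2 j j.2)

lemma RP_nat {J J' : Type} [LinearOrder J] [LinearOrder J'] (s : J → S) (s' : J' → S)
    (P : Finset J) (P' : Finset J') (hP : P.Nonempty) (hP' : P'.Nonempty)
    (hc : ∀ i ∈ P, ∀ j ∈ P, r (s i) (s j)) (hc' : ∀ i ∈ P', ∀ j ∈ P', r (s' i) (s' j))
    (θ : J → J') (hθ : ∀ j ∈ P, θ j ∈ P') (hm : ∀ i ∈ P, ∀ j ∈ P, i ≤ j → θ i ≤ θ j)
    (hs : ∀ j ∈ P, s j = s' (θ j)) (W : J → ℝ) (W' : J' → ℝ)
    (h0 : ∀ j, 0 ≤ W j) (h0' : ∀ j, 0 ≤ W' j)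
    (h1 : 0 < ∑ j ∈ P, W j) (h1' : 0 < ∑ j ∈ P', W' j)
    (hW : ∀ j' ∈ P', W' j' = ∑ j ∈ P with θ j = j', W j) :
    RP s P hP hc (nrm P W h0 h1) = RP s' P' hP' hc' (nrm P' W' h0' h1') := by
  haveI := hP.to_subtype
  haveI := hP'.to_subtype
  let Θ : P →o P' := ⟨fun j => ⟨θ j, hθ j j.2⟩, fun i j hij => hm i i.2 j j.2 hij⟩
  unfold RP
  rw [chiF_nat P P' _ _ (fun j => s' j) (fun i j => hc' i i.2 j j.2) Θ (fun i => hs i i.2)]
  congr 1
  ext j'
  rw [stdSimplex.map_coe, FunOnFinite.linearMap_apply_apply]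
  have hsum : ∑ j ∈ P', W' j = ∑ j ∈ P, W j := by
    rw [← Finset.sum_fiberwise_of_maps_to hθ]
    exact Finset.sum_congr rfl hW
  rw [nrm_apply, hW j' j'.2, hsum, Finset.sum_div]
  rw [Finset.sum_filter, Finset.sum_filter, ← Finset.sum_coe_sort P]
  refine Finset.sum_congr rfl fun j _ => ?_
  simp only [Subtype.ext_iff]
  rfl

/-- the point of the realisation with given weights -/
def R {J : Type} [LinearOrder J] (s : J → S) (W : J → ℝ) (h : Good r s W) :
    SSet.toTop.obj (flag r) :=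
  RP s h.fin.toFinset (by obtain ⟨j, hj⟩ := h.ne; exact ⟨j, by simpa using hj⟩)
    (fun i hi j hj => h.clique i j (by simpa using hi) (by simpa using hj))
    (nrm h.fin.toFinset W h.nonneg (by
      obtain ⟨j, hj⟩ := h.ne
      exact Finset.sum_pos' (fun j _ => h.nonneg j)
        ⟨j, by simpa using hj, lt_of_le_of_ne (h.nonneg j) (Ne.symm hj)⟩))

lemma R_eq {J : Type} [LinearOrder J] (s : J → S) (W : J → ℝ) (h : Good r s W) (P : Finset J)
    (hP : P.Nonempty) (hc : ∀ i ∈ P, ∀ j ∈ P, r (s i) (s j)) (hs : ∀ j, W j ≠ 0 → j ∈ P)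
    (h1 : 0 < ∑ j ∈ P, W j) : R s W h = RP s P hP hc (nrm P W h.nonneg h1) := by
  classical
  unfold R
  apply RP_nat (θ := id)
  · intro j hj; exact hs j (by simpa using hj)
  · intro i _ j _ hij; exact hij
  · intro j _; rfl
  · intro j' _
    simp only [id, Finset.sum_filter]
    rw [Finset.sum_ite_eq']
    split_ifs with h2
    · rfl
    · simpa using h2

lemma R_nat {J J' : Type} [LinearOrder J] [LinearOrder J'] (s : J → S) (s' : J' → S)
    (W : J → ℝ) (W' : J' → ℝ) (h : Good r s W) (h' : Good r s' W')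
    (θ : J → J') (hm : ∀ i j, W i ≠ 0 → W j ≠ 0 → i ≤ j → θ i ≤ θ j)
    (hs : ∀ j, W j ≠ 0 → s j = s' (θ j)) (P : Finset J) (hP : ∀ j, W j ≠ 0 → j ∈ P)
    (hW : ∀ j', W' j' = ∑ j ∈ P with θ j = j', W j) : R s W h = R s' W' h' := by
  classical
  unfold R
  apply RP_nat (θ := θ)
  · intro j hj
    have hj' : W j ≠ 0 := by simpa using hj
    simp only [Set.Finite.mem_toFinset, Function.mem_support]
    rw [hW]
    apply ne_of_gt
    exact Finset.sum_pos' (fun j _ => h.nonneg j)
        ⟨j, by simp [hP j hj'], lt_of_le_of_ne (h.nonneg j) (Ne.symm hj')⟩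
  · intro i hi j hj hij; exact hm i j (by simpa using hi) (by simpa using hj) hij
  · intro j hj; exact hs j (by simpa using hj)
  · intro j' _
    rw [hW]
    symm
    apply Finset.sum_subset_zero_on_sdiff
    · intro j hj
      simp only [Finset.mem_filter, Set.Finite.mem_toFinset, Function.mem_support] at hj ⊢
      exact ⟨hP j hj.1, hj.2⟩
    · intro j hj
      simp only [Finset.mem_sdiff, Finset.mem_filter, Set.Finite.mem_toFinset,
        Function.mem_support, not_and] at hj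
      by_contra hne
      exact hj.2 hne hj.1.2
    · intro j _; rfl

lemma R_continuous {J : Type} [LinearOrder J] (s : J → S) {Z : Type} [TopologicalSpace Z]
    (W : Z → J → ℝ) (h : ∀ z, Good r s (W z)) (P : Finset J) (hP : ∀ z j, W z j ≠ 0 → j ∈ P)
    (hc : ∀ j, Continuous fun z => W z j) : Continuous fun z => R s (W z) (h z) := by
  classical
  let ι : Type := {Q : Finset J // Q ⊆ P ∧ Q.Nonempty ∧ ∀ i ∈ Q, ∀ j ∈ Q, r (s i) (s j)}
  haveI : Finite ι := by
    apply Finite.of_injective (fun Q : ι => (⟨Q.1, Finset.mem_powerset.2 Q.2.1⟩ : P.powerset))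
    intro a b hab
    exact Subtype.ext (by simpa using hab)
  let C : ι → Set Z := fun Q => {z | ∀ j, j ∉ Q.1 → W z j = 0}
  apply LocallyFinite.continuous (f := C) (locallyFinite_of_finite C)
  · ext z
    simp only [Set.mem_iUnion, Set.mem_univ, iff_true]
    have hne := (h z).ne
    refine ⟨⟨(h z).fin.toFinset, ?_, ?_, ?_⟩, ?_⟩
    · intro j hj; exact hP z j (by simpa using hj)
    · obtain ⟨j, hj⟩ := hne; exact ⟨j, by simpa using hj⟩
    · intro i hi j hj; exact (h z).clique i j (by simpa using hi) (by simpa using hj)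
    · intro j hj; simpa using hj
  · intro Q
    have : C Q = ⋂ j, ⋂ (_ : j ∉ Q.1), {z | W z j = 0} := by
      ext z; simp [C]
    rw [this]
    exact isClosed_iInter fun j => isClosed_iInter fun _ => isClosed_eq (hc j) continuous_const
  · intro Q
    rw [continuousOn_iff_continuous_domRestrict]
    have hpos : ∀ z : C Q, 0 < ∑ j ∈ Q.1, W z j := by
      intro z
      obtain ⟨j, hj⟩ := (h z).ne
      refine Finset.sum_pos' (fun j _ => (h z).nonneg j) ⟨j, ?_, lt_of_le_of_ne ((h z).nonneg j) (Ne.symm hj)⟩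
      by_contra hn
      exact hj (z.2 j hn)
    have heq : (C Q).domRestrict (fun z => R s (W z) (h z)) =
        fun z : C Q => RP s Q.1 Q.2.2.1 Q.2.2.2 (nrm Q.1 (W z) (h z).nonneg (hpos z)) := by
      funext z
      exact R_eq s (W z) (h z) Q.1 Q.2.2.1 Q.2.2.2
        (fun j hj => by by_contra hn; exact hj (z.2 j hn)) (hpos z)
    rw [heq]
    apply (RP s Q.1 Q.2.2.1 Q.2.2.2).continuous.comp
    apply Continuous.subtype_mk
    apply continuous_pi
    intro j
    apply Continuous.div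
    · exact (hc j).comp continuous_subtype_val
    · exact continuous_finsetSum _ fun j _ => (hc j).comp continuous_subtype_val
    · intro z; exact (hpos z).ne'

end
end H464
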